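import Pool.Agent.H370.G.R_seed8.R841.TD.Str

/-! The string decomposition: independence, coordinates, existence of maps. -/

set_option autoImplicit false

namespace Pool.Agent.R841.TD

open Polynomial Module Pool.Agent.Helper9.TD

variable {K : Type*} [Field K] {V : Type*} [AddCommGroup V] [Module K V]

variable {A B : Module.End K V} {d : ℕ} {a b : ℕ → K} {P Q : ℕ → Module.End K V}

theorem Sys.disj' (h : Sys A B d a P d b Q) (i : ℕ) (v : V) (h1 : ∀ k ≤ d, i ≤ k → Q k v = 0)
    (h2 : ∀ k ≤ d, k < i → P k v = 0) : v = 0 := by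
  rcases i with _ | i
  · exact h.iB.eq_zero v fun k hk => h1 k hk (Nat.zero_le k)
  · exact h.disj i (i + 1) (by omega) v (mem_NN.mpr ⟨fun k hk hik => h1 k hk hik, h2⟩)

theorem Sys.indep_level (h : Sys A B d a P d b Q) (i : ℕ) (q : ℕ → V)
    (hq : ∀ j, q j ∈ LW d P Q j) (c : ℕ)
    (h0 : ∀ j < c, j ≤ d → P (d - j) (∑ j ∈ (Finset.range (i + 1)).filter (fun j => i + j ≤ d),
      aeval A (str a j (i - j)) (q j)) = 0) :
    ∀ j < c, j ≤ i → i + j ≤ d → q j = 0 := by
  intro j
  induction j using Nat.strong_induction_on with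
  | _ j ih =>
  intro hjc hji hij
  have h1 := h0 j hjc (by omega)
  rw [map_sum, Finset.sum_eq_single j] at h1
  · rw [P_aeval h.iA (d - j) (by omega)] at h1
    rcases smul_eq_zero.mp h1 with h2 | h2
    · exfalso
      rw [str_eval, Finset.prod_eq_zero_iff] at h2
      obtain ⟨t, ht, h4⟩ := h2
      have ht' := Finset.mem_range.mp ht
      have := h.iA.inj (d - j) (by omega) (j + t) (by omega) (sub_eq_zero.mp h4)
      omega
    · exact Sys.LW_inj h j (by omega) _ (hq j) h2
  · intro l hl hlj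
    rw [Finset.mem_filter, Finset.mem_range] at hl
    rcases lt_or_gt_of_ne hlj with hlj' | hlj'
    · rw [ih l hlj' (by omega) (by omega) hl.2, map_zero, map_zero]
    · rw [P_aeval h.iA (d - j) (by omega), LW_P (hq l) (d - j) (by omega) (by omega), smul_zero]
  · intro hj
    exfalso
    apply hj
    rw [Finset.mem_filter, Finset.mem_range]
    omega

theorem Sys.indep_U (h : Sys A B d a P d b Q) (x : ℕ → V) (hx : ∀ i, x i ∈ NN d P d Q i i) (n : ℕ)
    (h0 : ∑ i ∈ Finset.range n, x i = 0) : ∀ i < n, x i = 0 := by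
  induction n with
  | zero => intro i hi; omega
  | succ n ih =>
    rw [Finset.sum_range_succ] at h0
    have h1 : x n = 0 := by
      refine Sys.disj' h n _ (fun k hk hnk => ?_) (mem_NN.mp (hx n)).2
      have h2 : x n = - ∑ i ∈ Finset.range n, x i := by
        rw [eq_neg_iff_add_eq_zero, add_comm]; exact h0
      rw [h2, map_neg, map_sum, neg_eq_zero]
      refine Finset.sum_eq_zero fun i hi => ?_
      have hi' := Finset.mem_range.mp hi
      exact (mem_NN.mp (hx i)).1 k hk (by omega)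
    rw [h1, add_zero] at h0
    intro i hi
    by_cases hin : i = n
    · rw [hin, h1]
    · exact ih h0 i (by omega)

/-- index set of the strings -/
def II (d : ℕ) : Finset (ℕ × ℕ) :=
  (Finset.range (d + 1) ×ˢ Finset.range (d + 1)).filter (fun p => 2 * p.1 + p.2 ≤ d)

theorem mem_II {d : ℕ} {p : ℕ × ℕ} : p ∈ II d ↔ 2 * p.1 + p.2 ≤ d := by
  rw [II, Finset.mem_filter, Finset.mem_product, Finset.mem_range, Finset.mem_range]
  omega

theorem sum_II {M : Type*} [AddCommMonoid M] (d : ℕ) (f : ℕ → ℕ → M) :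
    ∑ p ∈ II d, f p.1 p.2 = ∑ i ∈ Finset.range (d + 1),
      ∑ j ∈ (Finset.range (i + 1)).filter (fun j => i + j ≤ d), f j (i - j) := by
  rw [Finset.sum_sigma']
  refine Finset.sum_bij' (fun p _ => ⟨p.1 + p.2, p.1⟩) (fun p _ => (p.2, p.1 - p.2)) ?_ ?_ ?_ ?_ ?_
  · intro p hp
    rw [mem_II] at hp
    simp only [Finset.mem_sigma, Finset.mem_range, Finset.mem_filter]
    omega
  · intro p hp
    simp only [Finset.mem_sigma, Finset.mem_range, Finset.mem_filter] at hp
    rw [mem_II]
    simp only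
    omega
  · intro p hp
    ext
    · rfl
    · simp
  · rintro ⟨i, j⟩ hp
    simp only [Finset.mem_sigma, Finset.mem_range, Finset.mem_filter] at hp
    simp only [Sigma.mk.injEq, heq_eq_eq, and_true]
    omega
  · intro p hp
    simp

theorem Sys.indep (h : Sys A B d a P d b Q) (q : ℕ → ℕ → V) (hq : ∀ j s, q j s ∈ LW d P Q j)
    (h0 : ∑ p ∈ II d, aeval A (str a p.1 p.2) (q p.1 p.2) = 0) :
    ∀ j s, 2 * j + s ≤ d → q j s = 0 := by
  rw [sum_II d (fun j s => aeval A (str a j s) (q j s))] at h0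
  have h1 := Sys.indep_U h (fun i => ∑ j ∈ (Finset.range (i + 1)).filter (fun j => i + j ≤ d),
    aeval A (str a j (i - j)) (q j (i - j))) (fun i => Submodule.sum_mem _ fun j hj => by
      rw [Finset.mem_filter, Finset.mem_range] at hj
      have h2 := Sys.aeval_mem h j (i - j) (q j (i - j)) (Submodule.mem_inf.mp (hq j (i - j))).1
      rwa [show j + (i - j) = i by omega] at h2) (d + 1) h0
  intro j s hjs
  have h2 := h1 (j + s) (by omega)
  have h3 := Sys.indep_level h (j + s) (fun l => q l (j + s - l)) (fun l => hq l _) (d + 1)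
    (fun l _ _ => by rw [h2, map_zero]) j (by omega) (by omega) (by omega)
  simpa using h3

theorem Sys.span (h : Sys A B d a P d b Q) (W : Submodule K V)
    (hW : ∀ j s, 2 * j + s ≤ d → ∀ q ∈ LW d P Q j, aeval A (str a j s) q ∈ W) : W = ⊤ := by
  rw [eq_top_iff, ← Sys.sup_U h]
  refine iSup_le fun i => ?_
  intro v hv
  by_cases hi : i ≤ d
  · obtain ⟨q, hq, hqe⟩ := Sys.gen h i hi v hv
    rw [hqe]
    refine Submodule.sum_mem _ fun j hj => ?_
    rw [Finset.mem_filter, Finset.mem_range] at hj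
    exact hW j (i - j) (by omega) (q j) (hq j)
  · have : v = 0 := h.iA.eq_zero v fun k hk => (mem_NN.mp hv).2 k hk (by omega)
    rw [this]
    exact W.zero_mem

theorem Sys.map_ext (h : Sys A B d a P d b Q) {W : Type*} [AddCommGroup W] [Module K W]
    (X X' : V →ₗ[K] W) (hX : ∀ j s, 2 * j + s ≤ d → ∀ q ∈ LW d P Q j,
      X (aeval A (str a j s) q) = X' (aeval A (str a j s) q)) : X = X' := by
  have h1 := Sys.span h (LinearMap.eqLocus X X') (fun j s hjs q hq => hX j s hjs q hq)
  ext v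
  have : v ∈ LinearMap.eqLocus X X' := by rw [h1]; exact Submodule.mem_top
  exact this

/-- the string map -/
noncomputable def strMap (A : Module.End K V) (d : ℕ) (a : ℕ → K) (P Q : ℕ → Module.End K V) :
    (∀ p : II d, LW d P Q p.1.1) →ₗ[K] V where
  toFun q := ∑ p : II d, aeval A (str a p.1.1 p.1.2) (q p : V)
  map_add' x y := by
    rw [← Finset.sum_add_distrib]
    refine Finset.sum_congr rfl fun p _ => ?_
    rw [Pi.add_apply, Submodule.coe_add, map_add]
  map_smul' c x := by
    rw [RingHom.id_apply, Finset.smul_sum]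
    refine Finset.sum_congr rfl fun p _ => ?_
    rw [Pi.smul_apply, Submodule.coe_smul, map_smul]

theorem strMap_apply (q : ∀ p : II d, LW d P Q p.1.1) :
    strMap A d a P Q q = ∑ p : II d, aeval A (str a p.1.1 p.1.2) (q p : V) := rfl

theorem strMap_inj (h : Sys A B d a P d b Q) : Function.Injective (strMap A d a P Q) := by
  rw [← LinearMap.ker_eq_bot, LinearMap.ker_eq_bot']
  intro q hq
  rw [strMap_apply] at hq
  let q' : ℕ → ℕ → V := fun j s => if hp : (j, s) ∈ II d then (q ⟨(j, s), hp⟩ : V) else 0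
  have hq' : ∀ j s, q' j s ∈ LW d P Q j := by
    intro j s
    show (if hp : (j, s) ∈ II d then (q ⟨(j, s), hp⟩ : V) else 0) ∈ _
    split_ifs with hp
    · exact (q ⟨(j, s), hp⟩).2
    · exact Submodule.zero_mem _
  have h1 : ∑ p ∈ II d, aeval A (str a p.1 p.2) (q' p.1 p.2) = 0 := by
    rw [← hq, ← Finset.sum_coe_sort]
    refine Finset.sum_congr rfl fun p _ => ?_
    have : q' p.1.1 p.1.2 = q p := by
      show (if hp : (p.1.1, p.1.2) ∈ II d then (q ⟨(p.1.1, p.1.2), hp⟩ : V) else 0) = _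
      rw [dif_pos p.2]
    rw [this]
  have h2 := Sys.indep h q' hq' h1
  funext p
  have h3 := h2 p.1.1 p.1.2 (mem_II.mp p.2)
  have : q' p.1.1 p.1.2 = q p := by
    show (if hp : (p.1.1, p.1.2) ∈ II d then (q ⟨(p.1.1, p.1.2), hp⟩ : V) else 0) = _
    rw [dif_pos p.2]
  rw [this] at h3
  exact Subtype.ext h3

theorem strMap_single (j s : ℕ) (hjs : (j, s) ∈ II d) (q : LW d P Q j) :
    strMap A d a P Q (Pi.single (M := fun p : II d => LW d P Q p.1.1) ⟨(j, s), hjs⟩ q) =
      aeval A (str a j s) (q : V) := by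
  classical
  rw [strMap_apply, Finset.sum_eq_single ⟨(j, s), hjs⟩]
  · rw [Pi.single_eq_same]
  · intro p _ hp
    rw [Pi.single_eq_of_ne hp, Submodule.coe_zero, map_zero]
  · intro hp
    exact absurd (Finset.mem_univ _) hp

theorem strMap_surj (h : Sys A B d a P d b Q) : Function.Surjective (strMap A d a P Q) := by
  rw [← LinearMap.range_eq_top]
  refine Sys.span h _ fun j s hjs q hq => ?_
  exact ⟨_, strMap_single j s (mem_II.mpr hjs) ⟨q, hq⟩⟩

theorem Sys.exists_map (h : Sys A B d a P d b Q) {W : Type*} [AddCommGroup W] [Module K W]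
    (Y : ∀ j : ℕ, ℕ → (LW d P Q j →ₗ[K] W)) :
    ∃ X : V →ₗ[K] W, ∀ j s, 2 * j + s ≤ d → ∀ q : LW d P Q j,
      X (aeval A (str a j s) (q : V)) = Y j s q := by
  classical
  let e := LinearEquiv.ofBijective (strMap A d a P Q) ⟨strMap_inj h, strMap_surj h⟩
  let S : (∀ p : II d, LW d P Q p.1.1) →ₗ[K] W :=
    ∑ p : II d, (Y p.1.1 p.1.2) ∘ₗ (LinearMap.proj p)
  refine ⟨S ∘ₗ e.symm.toLinearMap, fun j s hjs q => ?_⟩
  have hp : (j, s) ∈ II d := mem_II.mpr hjs
  have h1 : e.symm (aeval A (str a j s) (q : V)) =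
      Pi.single (M := fun p : II d => LW d P Q p.1.1) ⟨(j, s), hp⟩ q := by
    rw [LinearEquiv.symm_apply_eq]
    exact (strMap_single j s hp q).symm
  rw [LinearMap.comp_apply, LinearEquiv.coe_coe, h1]
  show (∑ p : II d, (Y p.1.1 p.1.2) ∘ₗ (LinearMap.proj p)) _ = _
  rw [LinearMap.sum_apply, Finset.sum_eq_single ⟨(j, s), hp⟩]
  · rw [LinearMap.comp_apply, LinearMap.proj_apply, Pi.single_eq_same]
  · intro p _ hp'
    rw [LinearMap.comp_apply, LinearMap.proj_apply, Pi.single_eq_of_ne hp', map_zero]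
  · intro hp'
    exact absurd (Finset.mem_univ _) hp'

/-- coordinate maps -/
theorem Sys.exists_coord (h : Sys A B d a P d b Q) (j s : ℕ) :
    ∃ c : V →ₗ[K] LW d P Q j, ∀ j' s', 2 * j' + s' ≤ d → ∀ q ∈ LW d P Q j',
      (c (aeval A (str a j' s') q) : V) = if j' = j ∧ s' = s then q else 0 := by
  obtain ⟨X, hX⟩ := Sys.exists_map h (W := V)
    (fun j' s' => if j' = j ∧ s' = s then (LW d P Q j').subtype else 0)
  have h1 : ∀ v, X v ∈ LW d P Q j := by
    intro v
    have h2 := Sys.span h ((LW d P Q j).comap X) (fun j' s' hjs q hq => by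
      rw [Submodule.mem_comap]
      have h3 := hX j' s' hjs ⟨q, hq⟩
      simp only at h3
      rw [h3]
      by_cases hj : j' = j ∧ s' = s
      · rw [if_pos hj]
        obtain ⟨rfl, rfl⟩ := hj
        exact hq
      · rw [if_neg hj]
        exact Submodule.zero_mem _)
    have h4 : v ∈ (LW d P Q j).comap X := by rw [h2]; exact Submodule.mem_top
    exact h4
  refine ⟨X.codRestrict _ h1, fun j' s' hjs q hq => ?_⟩
  rw [LinearMap.codRestrict_apply]
  have h3 := hX j' s' hjs ⟨q, hq⟩
  simp only at h3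
  rw [h3]
  split_ifs <;> rfl

end Pool.Agent.R841.TD
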