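import Pool.Agent.H370.G.R_seed8.Helper9.TDFlags

/-! Strings of monic linear factors, and the sequence `T`. -/

set_option autoImplicit false

namespace Pool.Agent.R841.TD

open Polynomial Module Pool.Agent.Helper9.TD

variable {K : Type*} [Field K]

/-- `∏_{h < s} (X - a_{j+h})` -/
noncomputable def str (a : ℕ → K) (j s : ℕ) : K[X] := ∏ h ∈ Finset.range s, (X - C (a (j + h)))

theorem str_zero (a : ℕ → K) (j : ℕ) : str a j 0 = 1 := by simp [str]

theorem str_succ (a : ℕ → K) (j s : ℕ) : str a j (s + 1) = str a j s * (X - C (a (j + s))) := by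
  rw [str, str, Finset.prod_range_succ]

theorem str_succ' (a : ℕ → K) (j s : ℕ) : str a j (s + 1) = (X - C (a j)) * str a (j + 1) s := by
  rw [str, str, Finset.prod_range_succ', mul_comm]
  congr 1
  refine Finset.prod_congr rfl fun h _ => ?_
  congr 3
  omega

theorem str_add (a : ℕ → K) (j s t : ℕ) : str a j (s + t) = str a j s * str a (j + s) t := by
  induction t with
  | zero => rw [add_zero, str_zero, mul_one]
  | succ t ih => rw [← add_assoc, str_succ, ih, str_succ, mul_assoc, add_assoc]

theorem str_monic (a : ℕ → K) (j s : ℕ) : (str a j s).Monic :=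
  monic_prod_of_monic _ _ fun _ _ => monic_X_sub_C _

theorem str_natDegree (a : ℕ → K) (j s : ℕ) : (str a j s).natDegree = s := by
  rw [str, natDegree_prod_of_monic _ _ fun _ _ => monic_X_sub_C _]
  simp

theorem str_eval (a : ℕ → K) (j s : ℕ) (x : K) :
    (str a j s).eval x = ∏ h ∈ Finset.range s, (x - a (j + h)) := by
  rw [str, eval_prod]
  simp

/-- `T_0 = 0`, `T_1 = 1`, `T_{n+2} = β T_{n+1} - T_n + 1` -/
def TT (β : K) : ℕ → K
  | 0 => 0
  | 1 => 1
  | (n + 2) => β * TT β (n + 1) - TT β n + 1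

/-- The coefficients `∑_{h<s} (a_{j+h} - a_{d-j-h})`. -/
def AA (d : ℕ) (a : ℕ → K) (j s : ℕ) : K := ∑ h ∈ Finset.range s, (a (j + h) - a (d - j - h))

end Pool.Agent.R841.TD
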