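import Pool.Agent.H370.G.R_seed8.R841.TD.Fin

/-! Dimensions of the eigenspaces in terms of the lowest weight spaces. -/

set_option autoImplicit false

namespace Pool.Agent.R841.TD

open Polynomial Module Pool.Agent.Helper9.TD

variable {K : Type*} [Field K] {V : Type*} [AddCommGroup V] [Module K V]

variable {A B : Module.End K V} {d : ℕ} {a b : ℕ → K} {P Q : ℕ → Module.End K V}

theorem Sys.finrank_eig [FiniteDimensional K V] (h : Sys A B d a P d b Q) (i : ℕ) (hi : i ≤ d) :
    finrank K (A.eigenspace (a i)) =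
      ∑ j ∈ (Finset.range (i + 1)).filter (fun j => i + j ≤ d), finrank K (LW d P Q j) := by
  classical
  set J := (Finset.range (i + 1)).filter (fun j => i + j ≤ d) with hJ
  have hmJ : ∀ j, j ∈ J ↔ j ≤ i ∧ i + j ≤ d := by
    intro j; rw [hJ, Finset.mem_filter, Finset.mem_range]; omega
  let Θ : (∀ j : J, LW d P Q j) →ₗ[K] V :=
    ∑ j : J, (P i ∘ₗ aeval A (str a j (i - j)) ∘ₗ (LW d P Q j).subtype) ∘ₗ LinearMap.proj j
  have hΘ : ∀ q, Θ q = P i (∑ j : J, aeval A (str a (j : ℕ) (i - j)) (q j : V)) := by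
    intro q
    show (∑ j : J, (P i ∘ₗ aeval A (str a j (i - j)) ∘ₗ (LW d P Q j).subtype) ∘ₗ
      LinearMap.proj j) q = _
    rw [LinearMap.sum_apply, map_sum]
    rfl
  have hmem : ∀ q, Θ q ∈ A.eigenspace (a i) := by
    intro q
    rw [hΘ, Module.End.mem_eigenspace_iff]
    exact h.iA.eig i hi _
  let Θ' : (∀ j : J, LW d P Q j) →ₗ[K] A.eigenspace (a i) := Θ.codRestrict _ hmem
  -- the sum in terms of a function on the natural numbers
  have hsum : ∀ q : ℕ → V, ∀ q' : (∀ j : J, LW d P Q j), (∀ j : J, (q' j : V) = q j) →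
      ∑ j : J, aeval A (str a (j : ℕ) (i - j)) (q' j : V) =
        ∑ j ∈ J, aeval A (str a j (i - j)) (q j) := by
    intro q q' hq
    rw [← Finset.sum_coe_sort J]
    exact Finset.sum_congr rfl fun j _ => by rw [hq j]
  have hinj : Function.Injective Θ' := by
    rw [← LinearMap.ker_eq_bot, LinearMap.ker_eq_bot']
    intro q hq
    have hq0 : Θ q = 0 := congrArg Subtype.val hq
    let q' : ℕ → V := fun j => if hj : j ∈ J then (q ⟨j, hj⟩ : V) else 0
    have hq'm : ∀ j, q' j ∈ LW d P Q j := by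
      intro j
      show (if hj : j ∈ J then (q ⟨j, hj⟩ : V) else 0) ∈ _
      split_ifs with hj
      · exact (q ⟨j, hj⟩).2
      · exact Submodule.zero_mem _
    have hq' : ∀ j : J, (q j : V) = q' j := by
      intro j
      show _ = (if hj : (j : ℕ) ∈ J then (q ⟨j, hj⟩ : V) else 0)
      rw [dif_pos j.2]
    rw [hΘ, hsum q' q hq'] at hq0
    have hU : ∑ j ∈ J, aeval A (str a j (i - j)) (q' j) ∈ NN d P d Q i i := by
      refine Submodule.sum_mem _ fun j hj => ?_
      rw [hmJ] at hj
      have h2 := Sys.aeval_mem h j (i - j) (q' j) (Submodule.mem_inf.mp (hq'm j)).1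
      rwa [show j + (i - j) = i by omega] at h2
    have h0 : ∑ j ∈ J, aeval A (str a j (i - j)) (q' j) = 0 := by
      refine h.disj i (i + 1) (by omega) _ (mem_NN.mpr ⟨(mem_NN.mp hU).1, fun k hk hki => ?_⟩)
      by_cases hki' : k = i
      · rw [hki']; exact hq0
      · exact (mem_NN.mp hU).2 k hk (by omega)
    have h1 := Sys.indep_level h i q' hq'm (d + 1) (fun l _ _ => by
      rw [← hJ, h0, map_zero])
    funext j
    have hj := (hmJ j).mp j.2
    refine Subtype.ext ?_
    rw [hq' j, h1 j (by omega) hj.1 hj.2]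
    rfl
  have hsurj : Function.Surjective Θ' := by
    rintro ⟨w, hw⟩
    rw [Module.End.mem_eigenspace_iff] at hw
    have hPw := h.iA.mem i hi w hw
    obtain ⟨u, g, hug, hu, hg⟩ := Sys.split h i w
    have huU : u ∈ NN d P d Q i i := by
      refine mem_NN.mpr ⟨hu, fun k hk hki => ?_⟩
      have : u = w - g := by rw [hug]; abel
      rw [this, map_sub, hg k hk (by omega), sub_zero, ← hPw, h.iA.orth k hk i hi,
        if_neg (by omega)]
    obtain ⟨q, hq, hqe⟩ := Sys.gen h i hi u huU
    refine ⟨fun j => ⟨q j, hq j⟩, Subtype.ext ?_⟩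
    show Θ _ = w
    rw [hΘ, hsum q _ (fun j => rfl), ← hqe]
    have : u = w - g := by rw [hug]; abel
    rw [this, map_sub, hPw, hg i hi (by omega), sub_zero]
  rw [← (LinearEquiv.ofBijective Θ' ⟨hinj, hsurj⟩).finrank_eq, finrank_pi_fintype,
    Finset.sum_coe_sort J (fun j => finrank K (LW d P Q j))]

theorem Sys.unique_dec (h : Sys A B d a P d b Q) (L : ℕ → Submodule K V) (hL : L = LW d P Q)
    (v : V) : ∃! q : (∀ p : II d, L p.1.1),
      ∑ p : II d, aeval A (str a p.1.1 p.1.2) (q p : V) = v := by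
  subst hL
  obtain ⟨q, hq⟩ := strMap_surj h v
  exact ⟨q, hq, fun q' hq' => strMap_inj h (hq'.trans hq.symm)⟩

theorem TDOrdering.sys {A B : Module.End K V} {d : ℕ} {a b : ℕ → K}
    (hA : TDOrdering A B d a) (hB : TDOrdering B A d b)
    (irred : Irred A B) :
    Sys A B d a (fun i => proj A (vals d a) (a i)) d b (fun i => proj B (vals d b) (b i)) := by
  have ne : ∀ {A B : Module.End K V} {a : ℕ → K}, TDOrdering A B d a → ∀ i ≤ d,
      ∃ v, proj A (vals d a) (a i) v ≠ 0 := by
    intro A B a h i hi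
    obtain ⟨v, hv⟩ := (h.2.1 i hi).exists_hasEigenvector
    refine ⟨v, ?_⟩
    rw [h.idem.mem i hi v hv.apply_eq_smul]
    exact hv.2
  exact ⟨hA.idem, hB.idem, fun i hi j hj hij v => hA.tri i hi j hj hij v,
    fun i hi j hj hij v => hB.tri i hi j hj hij v, irred, ne hA, ne hB⟩

theorem isLowering_iff (iA : Idem A d a P) (iB : Idem B d b Q) (X : Module.End K V) :
    IsLowering A B d a b X ↔ SL d P Q X := mem_Lowering_iff iA iB X

theorem main {A B : Module.End K V} {d : ℕ} {a b : ℕ → K} (hA : TDOrdering A B d a)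
    (hB : TDOrdering B A d b) (irred : Irred A B) :
    StringDecomp A B d a b ∧ (∃ β : K, Recur d a β) ∧
    (∀ β : K, Recur d a β →
      Produces A B d a b β ∧ Exhausts A B d a b β ∧ Faithful A B d a b β) := by
  have h := TDOrdering.sys hA hB irred
  have hL := Low_eq h.iA h.iB
  have hS := isLowering_iff h.iA h.iB
  refine ⟨fun v => Sys.unique_dec h _ hL v, rec_a h, fun β hβ => ⟨fun f g z => ?_,
    fun X hX => Sys.exhausts h _ hL β hβ ((hS X).mp hX),
    fun f f' g g' z z' X hF hF' => Sys.faithful h _ hL β hβ f f' g g' z z' hF hF'⟩⟩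
  obtain ⟨h1, h2⟩ := Sys.produces h _ hL β hβ f g z
  exact ⟨h1, fun X hX => (hS X).mpr (h2 X hX)⟩

theorem main_dim [FiniteDimensional K V] {A B : Module.End K V} {d : ℕ} {a b : ℕ → K}
    (hA : TDOrdering A B d a) (hB : TDOrdering B A d b) (irred : Irred A B) :
    DimLowering A B d a b ∧ DimEigenspaces A B d a b := by
  have h := TDOrdering.sys hA hB irred
  have hL := Low_eq h.iA h.iB
  have hS := mem_Lowering_iff h.iA h.iB
  obtain ⟨β, hβ⟩ := rec_a h
  refine ⟨?_, fun i hi => ?_⟩
  · obtain ⟨e, -⟩ := Sys.exists_equiv h _ hL _ hS β hβ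
    show finrank K (Lowering A B d a b) = _
    rw [← e.finrank_eq, Par_finrank]
  · rw [Sys.finrank_eig h i hi, hL]
    refine Finset.sum_congr ?_ fun j _ => rfl
    ext j
    rw [Finset.mem_filter, Finset.mem_range, Finset.mem_range]
    omega

end Pool.Agent.R841.TD
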