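import Pool.Agent.H370.G.R_seed8.R841.TD.Main

/-! The final form: parametrization, eigenspaces, dimension. -/

set_option autoImplicit false

namespace Pool.Agent.R841.TD

open Polynomial Module Pool.Agent.Helper9.TD

variable {K : Type*} [Field K] {V : Type*} [AddCommGroup V] [Module K V]

/-- `(V*_0 + ⋯ + V*_j) ∩ (V_j + ⋯ + V_{d-j})`, where `V_i`, `V*_i` are the eigenspaces of `A`, `B`
for the eigenvalues `a i`, `b i`. -/
def Low (A B : Module.End K V) (d : ℕ) (a b : ℕ → K) (j : ℕ) : Submodule K V :=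
  (⨆ (i : ℕ) (_ : i ≤ j ∧ i ≤ d), B.eigenspace (b i)) ⊓
    (⨆ (i : ℕ) (_ : j ≤ i ∧ i + j ≤ d), A.eigenspace (a i))

/-- `X V*_i ⊆ V*_0 + ⋯ + V*_{i-1}` and `X V_i ⊆ V_{i-1} + V_i + V_{i+1}` for `0 ≤ i ≤ d`. -/
def IsLowering (A B : Module.End K V) (d : ℕ) (a b : ℕ → K) (X : Module.End K V) : Prop :=
  (∀ i ≤ d, ∀ v ∈ B.eigenspace (b i), X v ∈ ⨆ (k : ℕ) (_ : k < i), B.eigenspace (b k)) ∧
  (∀ i ≤ d, ∀ v ∈ A.eigenspace (a i),
    X v ∈ ⨆ (k : ℕ) (_ : k ≤ d ∧ k ≤ i + 1 ∧ i ≤ k + 1), A.eigenspace (a k))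

theorem IsLowering.add {A B : Module.End K V} {d : ℕ} {a b : ℕ → K} {X Y : Module.End K V}
    (h : IsLowering A B d a b X) (h' : IsLowering A B d a b Y) : IsLowering A B d a b (X + Y) :=
  ⟨fun i hi v hv => Submodule.add_mem _ (h.1 i hi v hv) (h'.1 i hi v hv),
    fun i hi v hv => Submodule.add_mem _ (h.2 i hi v hv) (h'.2 i hi v hv)⟩

theorem IsLowering.zero {A B : Module.End K V} {d : ℕ} {a b : ℕ → K} :
    IsLowering A B d a b (0 : Module.End K V) :=
  ⟨fun _ _ _ _ => Submodule.zero_mem _, fun _ _ _ _ => Submodule.zero_mem _⟩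

theorem IsLowering.smul {A B : Module.End K V} {d : ℕ} {a b : ℕ → K} {X : Module.End K V} (c : K)
    (h : IsLowering A B d a b X) : IsLowering A B d a b (c • X) :=
  ⟨fun i hi v hv => Submodule.smul_mem _ c (h.1 i hi v hv),
    fun i hi v hv => Submodule.smul_mem _ c (h.2 i hi v hv)⟩

/-- The space of the linear maps `X` with `X V*_i ⊆ V*_0 + ⋯ + V*_{i-1}` and
`X V_i ⊆ V_{i-1} + V_i + V_{i+1}` for `0 ≤ i ≤ d`. -/
def Lowering (A B : Module.End K V) (d : ℕ) (a b : ℕ → K) : Submodule K (Module.End K V) where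
  carrier := {X | IsLowering A B d a b X}
  add_mem' := IsLowering.add
  zero_mem' := IsLowering.zero
  smul_mem' := fun c _ h => IsLowering.smul c h

/-- The parameters: endomorphisms of the `L j` with `2 j < d`, and linear maps `L j → L (j+1)` and
`L (j+1) → L j` for `2 j + 2 ≤ d`. -/
abbrev Par (L : ℕ → Submodule K V) (d : ℕ) : Type _ :=
  (∀ j : Fin ((d + 1) / 2), L j →ₗ[K] L j) × (∀ j : Fin (d / 2), L j →ₗ[K] L (j + 1)) ×
    (∀ j : Fin (d / 2), L (j + 1) →ₗ[K] L j)

/-- first component, extended by zero -/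
def pf {L : ℕ → Submodule K V} {d : ℕ} (p : Par L d) (j : ℕ) : L j →ₗ[K] L j :=
  if hj : j < (d + 1) / 2 then p.1 ⟨j, hj⟩ else 0

/-- second component, extended by zero -/
def pg {L : ℕ → Submodule K V} {d : ℕ} (p : Par L d) (j : ℕ) : L j →ₗ[K] L (j + 1) :=
  if hj : j < d / 2 then p.2.1 ⟨j, hj⟩ else 0

/-- third component, extended by zero -/
def ph {L : ℕ → Submodule K V} {d : ℕ} (p : Par L d) (j : ℕ) : L (j + 1) →ₗ[K] L j :=
  if hj : j < d / 2 then p.2.2 ⟨j, hj⟩ else 0

/-- `X` is the map with parameters `p`. -/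
def FormulaP (A : Module.End K V) (d : ℕ) (a : ℕ → K) (β : K) {L : ℕ → Submodule K V}
    (p : Par L d) (X : Module.End K V) : Prop :=
  (∀ s ≤ d, ∀ q : L 0, X (aeval A (str a 0 s) (q : V)) =
    AA d a 0 s • aeval A (str a 0 (s - 1)) (pf p 0 q : V) +
    TT β (s - 1) • aeval A (str a 1 (s - 2)) (pg p 0 q : V)) ∧
  (∀ j s, 2 * (j + 1) + s ≤ d → ∀ q : L (j + 1), X (aeval A (str a (j + 1) s) (q : V)) =
    AA d a (j + 1) s • aeval A (str a (j + 1) (s - 1)) (pf p (j + 1) q : V) +
    TT β (s - 1) • aeval A (str a (j + 2) (s - 2)) (pg p (j + 1) q : V) +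
    TT β (d - 1 - 2 * j - s) • aeval A (str a j s) (ph p j q : V))

/-- the recurrence of the eigenvalues -/
def Recur (d : ℕ) (a : ℕ → K) (β : K) : Prop :=
  ∀ i, i + 3 ≤ d → a i - a (i + 3) = (β + 1) * (a (i + 1) - a (i + 2))

/-- no nontrivial common invariant subspace -/
def Irred (A B : Module.End K V) : Prop :=
  ∀ W : Submodule K V, (∀ w ∈ W, A w ∈ W) → (∀ w ∈ W, B w ∈ W) → W = ⊥ ∨ W = ⊤

/-- `(A - a_j) (A - a_{j+1}) ⋯ (A - a_{j+s-1})` -/
noncomputable def tau (A : Module.End K V) (a : ℕ → K) (j s : ℕ) : Module.End K V :=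
  aeval A (str a j s)

/-- Every vector is in a unique way a sum of vectors `τ_{j,s} q_{j,s}` with `q_{j,s} ∈ L_j`,
over all `j, s` with `2 j + s ≤ d`. -/
def StringDecomp (A B : Module.End K V) (d : ℕ) (a b : ℕ → K) : Prop :=
  ∀ v : V, ∃! q : (∀ p : II d, Low A B d a b p.1.1),
    ∑ p : II d, tau A a p.1.1 p.1.2 (q p : V) = v

/-- families of linear maps `L_j → L'_j` -/
abbrev Fam (L L' : ℕ → Submodule K V) : Type _ := ∀ j, L j →ₗ[K] L' j

/-- the vector `f_j q` of `V` -/
def ap {L L' : ℕ → Submodule K V} (f : Fam L L') (j : ℕ) (q : L j) : V := (f j q : V)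

/-- The formula for `X` on the strings `τ_{0,s} q`, `q ∈ L_0`. -/
def FormulaZero (A : Module.End K V) (d : ℕ) (a : ℕ → K) (β : K) {L : ℕ → Submodule K V}
    (f : Fam L L) (g : Fam L (fun j => L (j + 1))) (X : Module.End K V) : Prop :=
  ∀ s ≤ d, ∀ q : L 0, X (tau A a 0 s q) =
    AA d a 0 s • tau A a 0 (s - 1) (ap f 0 q) + TT β (s - 1) • tau A a 1 (s - 2) (ap g 0 q)

/-- The formula for `X` on the strings `τ_{j+1,s} q`, `q ∈ L_{j+1}`. -/
def FormulaSucc (A : Module.End K V) (d : ℕ) (a : ℕ → K) (β : K) {L : ℕ → Submodule K V}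
    (f : Fam L L) (g : Fam L (fun j => L (j + 1))) (h : Fam (fun j => L (j + 1)) L)
    (X : Module.End K V) (j : ℕ) : Prop :=
  ∀ s, 2 * (j + 1) + s ≤ d → ∀ q : L (j + 1), X (tau A a (j + 1) s q) =
    AA d a (j + 1) s • tau A a (j + 1) (s - 1) (ap f (j + 1) q) +
    TT β (s - 1) • tau A a (j + 2) (s - 2) (ap g (j + 1) q) +
    TT β (d - 1 - 2 * j - s) • tau A a j s (ap h j q)

/-- `X` is the map given by `f`, `g`, `h`. -/
def Formula (A : Module.End K V) (d : ℕ) (a : ℕ → K) (β : K) {L : ℕ → Submodule K V}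
    (f : Fam L L) (g : Fam L (fun j => L (j + 1))) (h : Fam (fun j => L (j + 1)) L)
    (X : Module.End K V) : Prop :=
  FormulaZero A d a β f g X ∧ ∀ j, FormulaSucc A d a β f g h X j

/-- Every `(f, g, h)` defines exactly one `X`, and this `X` satisfies the two conditions. -/
def Produces (A B : Module.End K V) (d : ℕ) (a b : ℕ → K) (β : K) : Prop :=
  ∀ (f : Fam (Low A B d a b) (Low A B d a b))
    (g : Fam (Low A B d a b) (fun j => Low A B d a b (j + 1)))
    (h : Fam (fun j => Low A B d a b (j + 1)) (Low A B d a b)),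
    (∃! X, Formula A d a β f g h X) ∧ ∀ X, Formula A d a β f g h X → IsLowering A B d a b X

/-- Every `X` with the two conditions is defined by some `(f, g, h)`. -/
def Exhausts (A B : Module.End K V) (d : ℕ) (a b : ℕ → K) (β : K) : Prop :=
  ∀ X, IsLowering A B d a b X → ∃ (f : Fam (Low A B d a b) (Low A B d a b))
    (g : Fam (Low A B d a b) (fun j => Low A B d a b (j + 1)))
    (h : Fam (fun j => Low A B d a b (j + 1)) (Low A B d a b)), Formula A d a β f g h X

/-- The maps `f_j` (`2 j < d`) and `g_j`, `h_j` (`2 j + 2 ≤ d`) are determined by `X`. -/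
def Faithful (A B : Module.End K V) (d : ℕ) (a b : ℕ → K) (β : K) : Prop :=
  ∀ (f f' : Fam (Low A B d a b) (Low A B d a b))
    (g g' : Fam (Low A B d a b) (fun j => Low A B d a b (j + 1)))
    (h h' : Fam (fun j => Low A B d a b (j + 1)) (Low A B d a b)) (X : Module.End K V),
    Formula A d a β f g h X → Formula A d a β f' g' h' X →
      (∀ j, 2 * j < d → f j = f' j) ∧ (∀ j, 2 * j + 2 ≤ d → g j = g' j ∧ h j = h' j)

/-- `dim {X} = ∑_{2j<d} n_j² + 2 ∑_{2j+2≤d} n_j n_{j+1}`, `n_j = dim L_j` -/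
def DimLowering (A B : Module.End K V) (d : ℕ) (a b : ℕ → K) : Prop :=
  finrank K (Lowering A B d a b) =
    ∑ j ∈ Finset.range ((d + 1) / 2), finrank K (Low A B d a b j) ^ 2 +
    2 * ∑ j ∈ Finset.range (d / 2),
      finrank K (Low A B d a b j) * finrank K (Low A B d a b (j + 1))

/-- `dim V_i = ∑_{j ≤ min(i, d-i)} dim L_j` -/
def DimEigenspaces (A B : Module.End K V) (d : ℕ) (a b : ℕ → K) : Prop :=
  ∀ i ≤ d, finrank K (A.eigenspace (a i)) =
    ∑ j ∈ Finset.range (min i (d - i) + 1), finrank K (Low A B d a b j)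

variable {A B : Module.End K V} {d : ℕ} {a b : ℕ → K} {P Q : ℕ → Module.End K V}
  {X : Module.End K V}

theorem formulaP_iff (β : K) (p : Par (LW d P Q) d) :
    FormulaP A d a β p X ↔ Fml A d a P Q β (pf p) (pg p) (ph p) X := by
  constructor
  · rintro ⟨h1, h2⟩ j s hjs q
    rcases j with _ | j
    · rw [h1 s (by omega) q]
      have : zV (ph p) 0 q = 0 := rfl
      rw [this, map_zero, smul_zero, add_zero]
    · rw [h2 j s hjs q, show d + 1 - 2 * (j + 1) - s = d - 1 - 2 * j - s by omega]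
      rfl
  · intro h
    refine ⟨fun s hs q => ?_, fun j s hjs q => ?_⟩
    · rw [h 0 s (by omega) q]
      have : zV (ph p) 0 q = 0 := rfl
      rw [this, map_zero, smul_zero, add_zero]
    · rw [h (j + 1) s hjs q, show d + 1 - 2 * (j + 1) - s = d - 1 - 2 * j - s by omega]
      rfl

theorem FormulaP.add {L : ℕ → Submodule K V} {β : K} {p p' : Par L d} {X X' : Module.End K V}
    (h : FormulaP A d a β p X) (h' : FormulaP A d a β p' X') :
    FormulaP A d a β (p + p') (X + X') := by
  have e1 : ∀ j, pf (p + p') j = pf p j + pf p' j := by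
    intro j; unfold pf; split_ifs
    · rfl
    · rw [add_zero]
  have e2 : ∀ j, pg (p + p') j = pg p j + pg p' j := by
    intro j; unfold pg; split_ifs
    · rfl
    · rw [add_zero]
  have e3 : ∀ j, ph (p + p') j = ph p j + ph p' j := by
    intro j; unfold ph; split_ifs
    · rfl
    · rw [add_zero]
  refine ⟨fun s hs q => ?_, fun j s hjs q => ?_⟩
  · rw [LinearMap.add_apply, h.1 s hs q, h'.1 s hs q, e1, e2]
    simp only [LinearMap.add_apply, Submodule.coe_add, map_add, smul_add]
    abel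
  · rw [LinearMap.add_apply, h.2 j s hjs q, h'.2 j s hjs q, e1, e2, e3]
    simp only [LinearMap.add_apply, Submodule.coe_add, map_add, smul_add]
    abel

theorem FormulaP.smul {L : ℕ → Submodule K V} {β : K} {p : Par L d} {X : Module.End K V} (c : K)
    (h : FormulaP A d a β p X) : FormulaP A d a β (c • p) (c • X) := by
  have e1 : ∀ j, pf (c • p) j = c • pf p j := by
    intro j; unfold pf; split_ifs
    · rfl
    · rw [smul_zero]
  have e2 : ∀ j, pg (c • p) j = c • pg p j := by
    intro j; unfold pg; split_ifs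
    · rfl
    · rw [smul_zero]
  have e3 : ∀ j, ph (c • p) j = c • ph p j := by
    intro j; unfold ph; split_ifs
    · rfl
    · rw [smul_zero]
  refine ⟨fun s hs q => ?_, fun j s hjs q => ?_⟩
  · rw [LinearMap.smul_apply, h.1 s hs q, e1, e2]
    simp only [LinearMap.smul_apply, Submodule.coe_smul, map_smul, smul_add]
    rw [smul_comm c, smul_comm c (TT β (s - 1))]
  · rw [LinearMap.smul_apply, h.2 j s hjs q, e1, e2, e3]
    simp only [LinearMap.smul_apply, Submodule.coe_smul, map_smul, smul_add]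
    rw [smul_comm c, smul_comm c (TT β (s - 1)), smul_comm c (TT β (d - 1 - 2 * j - s))]

theorem Sys.formulaP_ext (h : Sys A B d a P d b Q) {β : K} {p : Par (LW d P Q) d}
    {X X' : Module.End K V} (hX : FormulaP A d a β p X) (hX' : FormulaP A d a β p X') : X = X' := by
  rw [formulaP_iff] at hX hX'
  refine Sys.map_ext h X X' fun j s hjs q hq => ?_
  exact (hX j s hjs ⟨q, hq⟩).trans (hX' j s hjs ⟨q, hq⟩).symm

theorem Sys.exists_equiv (h : Sys A B d a P d b Q) (L : ℕ → Submodule K V) (hL : L = LW d P Q)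
    (S : Submodule K (Module.End K V)) (hS : ∀ X, X ∈ S ↔ SL d P Q X) (β : K)
    (hrec : ∀ i, i + 3 ≤ d → a i - a (i + 3) = (β + 1) * (a (i + 1) - a (i + 2))) :
    ∃ e : Par L d ≃ₗ[K] S, ∀ p : Par L d, FormulaP A d a β p (e p : Module.End K V) := by
  subst hL
  have hex : ∀ p : Par (LW d P Q) d, ∃ X : Module.End K V, X ∈ S ∧ FormulaP A d a β p X := by
    intro p
    obtain ⟨X, hX⟩ := Sys.exists_X h β (pf p) (pg p) (ph p)
    exact ⟨X, (hS X).mpr (Fml.SL h β hrec _ _ _ hX), (formulaP_iff β p).mpr hX⟩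
  choose F hFS hF using hex
  let φ : Par (LW d P Q) d →ₗ[K] S :=
    { toFun := fun p => ⟨F p, hFS p⟩
      map_add' := fun p p' => Subtype.ext
        (Sys.formulaP_ext h (hF (p + p')) (FormulaP.add (hF p) (hF p')))
      map_smul' := fun c p => Subtype.ext
        (Sys.formulaP_ext h (hF (c • p)) (FormulaP.smul c (hF p))) }
  have hbij : Function.Bijective φ := by
    constructor
    · intro p p' hpp
      have h0 : F p = F p' := congrArg Subtype.val hpp
      have h1 := (formulaP_iff β p).mp (hF p)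
      have h2 := (formulaP_iff β p').mp (hF p')
      rw [← h0] at h2
      obtain ⟨h3, h4, h5⟩ := Fml.unique h β hrec _ _ _ _ _ _ h1 h2
      refine Prod.ext (funext fun j => ?_) (Prod.ext (funext fun j => ?_) (funext fun j => ?_))
      · have h6 := h3 j (by have := j.2; omega)
        unfold pf at h6
        rwa [dif_pos j.2, dif_pos j.2] at h6
      · have h6 := h4 j (by have := j.2; omega)
        unfold pg at h6
        rwa [dif_pos j.2, dif_pos j.2] at h6
      · have h6 := h5 j (by have := j.2; omega)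
        unfold ph at h6
        rwa [dif_pos j.2, dif_pos j.2] at h6
    · rintro ⟨X, hX⟩
      obtain ⟨f, g, z, hfgz⟩ := Sys.exists_Fml h β hrec ((hS X).mp hX)
      let p : Par (LW d P Q) d := (fun j => f j, fun j => g j, fun j => z j)
      refine ⟨p, Subtype.ext ?_⟩
      show F p = X
      refine Sys.formulaP_ext h (hF p) ((formulaP_iff β p).mpr ?_)
      intro j s hjs q
      rw [hfgz j s hjs q]
      congr 1
      · congr 1
        · by_cases hj : j < (d + 1) / 2
          · have : pf p j = f j := by unfold pf; rw [dif_pos hj]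
            rw [this]
          · rw [show s = 0 by omega, AA_zero, zero_smul, zero_smul]
        · by_cases hj : j < d / 2
          · have : pg p j = g j := by unfold pg; rw [dif_pos hj]
            rw [this]
          · rw [show s - 1 = 0 by omega]
            exact (zero_smul K _).trans (zero_smul K _).symm
      · rcases j with _ | j
        · rfl
        · have : ph p j = z j := by unfold ph; rw [dif_pos (by omega)]
          have h7 : zV (ph p) (j + 1) q = zV z (j + 1) q := by
            show ((ph p j q : LW d P Q j) : V) = (z j q : LW d P Q j)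
            rw [this]
          rw [h7]
  exact ⟨LinearEquiv.ofBijective φ hbij, fun p => hF p⟩

theorem formula_iff (β : K) (f : Fam (LW d P Q) (LW d P Q))
    (g : Fam (LW d P Q) (fun j => LW d P Q (j + 1))) (z : Fam (fun j => LW d P Q (j + 1)) (LW d P Q)) :
    Formula A d a β f g z X ↔ Fml A d a P Q β f g z X := by
  constructor
  · rintro ⟨h1, h2⟩ j s hjs q
    rcases j with _ | j
    · have h3 := h1 s (by omega) q
      have : zV z 0 q = 0 := rfl
      rw [this, map_zero, smul_zero, add_zero]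
      exact h3
    · have h3 := h2 j s hjs q
      rw [show d + 1 - 2 * (j + 1) - s = d - 1 - 2 * j - s by omega]
      exact h3
  · intro h
    refine ⟨fun s hs q => ?_, fun j s hjs q => ?_⟩
    · have h3 := h 0 s (by omega) q
      have h4 : zV z 0 q = 0 := rfl
      rw [h4, map_zero, smul_zero, add_zero] at h3
      exact h3
    · have h3 := h (j + 1) s hjs q
      rw [show d + 1 - 2 * (j + 1) - s = d - 1 - 2 * j - s by omega] at h3
      exact h3

theorem Sys.produces (h : Sys A B d a P d b Q) (L : ℕ → Submodule K V) (hL : L = LW d P Q)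
    (β : K) (hrec : Recur d a β) (f : Fam L L) (g : Fam L (fun j => L (j + 1)))
    (z : Fam (fun j => L (j + 1)) L) :
    (∃! X, Formula A d a β f g z X) ∧ ∀ X, Formula A d a β f g z X → SL d P Q X := by
  subst hL
  obtain ⟨X, hX⟩ := Sys.exists_X h β f g z
  refine ⟨⟨X, (formula_iff β f g z).mpr hX, fun X' hX' => ?_⟩, fun X' hX' => ?_⟩
  · have h2 := (formula_iff β f g z).mp hX'
    refine Sys.map_ext h X' X fun j s hjs q hq => ?_
    exact (h2 j s hjs ⟨q, hq⟩).trans (hX j s hjs ⟨q, hq⟩).symm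
  · exact Fml.SL h β hrec f g z ((formula_iff β f g z).mp hX')

theorem Sys.exhausts (h : Sys A B d a P d b Q) (L : ℕ → Submodule K V) (hL : L = LW d P Q)
    (β : K) (hrec : Recur d a β) (hX : SL d P Q X) : ∃ (f : Fam L L)
    (g : Fam L (fun j => L (j + 1))) (z : Fam (fun j => L (j + 1)) L),
      Formula A d a β f g z X := by
  subst hL
  obtain ⟨f, g, z, hF⟩ := Sys.exists_Fml h β hrec hX
  exact ⟨f, g, z, (formula_iff β f g z).mpr hF⟩

theorem Sys.faithful (h : Sys A B d a P d b Q) (L : ℕ → Submodule K V) (hL : L = LW d P Q)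
    (β : K) (hrec : Recur d a β) (f f' : Fam L L) (g g' : Fam L (fun j => L (j + 1)))
    (z z' : Fam (fun j => L (j + 1)) L) (hF : Formula A d a β f g z X)
    (hF' : Formula A d a β f' g' z' X) :
    (∀ j, 2 * j < d → f j = f' j) ∧ (∀ j, 2 * j + 2 ≤ d → g j = g' j ∧ z j = z' j) := by
  subst hL
  obtain ⟨h1, h2, h3⟩ := Fml.unique h β hrec f f' g g' z z' ((formula_iff β f g z).mp hF)
    ((formula_iff β f' g' z').mp hF')
  exact ⟨fun j hj => h1 j (by omega), fun j hj => ⟨h2 j hj, h3 j hj⟩⟩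

theorem Par_finrank [FiniteDimensional K V] (L : ℕ → Submodule K V) (d : ℕ) :
    finrank K (Par L d) = ∑ j ∈ Finset.range ((d + 1) / 2), finrank K (L j) ^ 2 +
      2 * ∑ j ∈ Finset.range (d / 2), finrank K (L j) * finrank K (L (j + 1)) := by
  rw [finrank_prod, finrank_prod, finrank_pi_fintype, finrank_pi_fintype, finrank_pi_fintype]
  simp only [finrank_linearMap]
  rw [Finset.sum_range fun j => finrank K (L j) ^ 2,
    Finset.sum_range fun j => finrank K (L j) * finrank K (L (j + 1)), two_mul]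
  congr 1
  · refine Finset.sum_congr rfl fun j _ => ?_
    rw [sq]
  · congr 1
    refine Finset.sum_congr rfl fun j _ => ?_
    rw [mul_comm]

theorem mem_iSup_iff (iA : Idem A d a P) (S : ℕ → Prop) (hS : ∀ k, S k → k ≤ d) (v : V) :
    v ∈ (⨆ (k : ℕ) (_ : S k), A.eigenspace (a k)) ↔ ∀ k ≤ d, ¬ S k → P k v = 0 := by
  constructor
  · intro hv k hk hSk
    have hle : (⨆ (k : ℕ) (_ : S k), A.eigenspace (a k)) ≤ LinearMap.ker (P k) := by
      refine iSup_le fun l => iSup_le fun hl => ?_
      intro w hw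
      rw [Module.End.mem_eigenspace_iff] at hw
      rw [LinearMap.mem_ker, ← iA.mem l (hS l hl) w hw, iA.orth k hk l (hS l hl), if_neg]
      rintro rfl
      exact hSk hl
    exact hle hv
  · intro hv
    rw [← iA.sum v]
    refine Submodule.sum_mem _ fun k hk => ?_
    have hk' : k ≤ d := by simpa [Nat.lt_succ_iff] using hk
    by_cases hSk : S k
    · refine Submodule.mem_iSup_of_mem k (Submodule.mem_iSup_of_mem hSk ?_)
      rw [Module.End.mem_eigenspace_iff]
      exact iA.eig k hk' v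
    · rw [hv k hk' hSk]
      exact Submodule.zero_mem _

theorem Low_eq (iA : Idem A d a P) (iB : Idem B d b Q) : Low A B d a b = LW d P Q := by
  funext j
  ext v
  rw [Low, Submodule.mem_inf, mem_iSup_iff iB _ (fun k hk => hk.2) v,
    mem_iSup_iff iA _ (fun k hk => by omega) v, mem_LW]
  constructor
  · rintro ⟨h1, h2⟩
    exact ⟨fun k hk hjk => h1 k hk (by omega), fun k hk hjk => h2 k hk (by omega),
      fun k hk hjk => h2 (d - k) (by omega) (by omega)⟩
  · rintro ⟨h1, h2, h3⟩
    refine ⟨fun k hk hjk => h1 k hk (by omega), fun k hk hjk => ?_⟩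
    by_cases hkj : k < j
    · exact h2 k hk hkj
    · have := h3 (d - k) (by omega) (by omega)
      rwa [Nat.sub_sub_self hk] at this

theorem mem_Lowering_iff (iA : Idem A d a P) (iB : Idem B d b Q) (X : Module.End K V) :
    X ∈ Lowering A B d a b ↔ SL d P Q X := by
  have hdef : X ∈ Lowering A B d a b ↔ (∀ i ≤ d, ∀ v ∈ B.eigenspace (b i),
      X v ∈ ⨆ (k : ℕ) (_ : k < i), B.eigenspace (b k)) ∧
    (∀ i ≤ d, ∀ v ∈ A.eigenspace (a i),
      X v ∈ ⨆ (k : ℕ) (_ : k ≤ d ∧ k ≤ i + 1 ∧ i ≤ k + 1), A.eigenspace (a k)) := Iff.rfl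
  rw [hdef]
  constructor
  · rintro ⟨h1, h2⟩
    refine ⟨fun i hi k hk hik v => ?_, fun i hi k hk hik v => ?_⟩
    · have h3 := h1 i hi (Q i v) (by rw [Module.End.mem_eigenspace_iff]; exact iB.eig i hi v)
      rw [mem_iSup_iff iB _ (fun k hk => by omega)] at h3
      exact h3 k hk (by omega)
    · have h3 := h2 i hi (P i v) (by rw [Module.End.mem_eigenspace_iff]; exact iA.eig i hi v)
      rw [mem_iSup_iff iA _ (fun k hk => hk.1)] at h3
      exact h3 k hk (by omega)
  · rintro ⟨h1, h2⟩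
    refine ⟨fun i hi v hv => ?_, fun i hi v hv => ?_⟩
    · rw [Module.End.mem_eigenspace_iff] at hv
      rw [mem_iSup_iff iB _ (fun k hk => by omega)]
      intro k hk hki
      rw [← iB.mem i hi v hv]
      exact h1 i hi k hk (by omega) v
    · rw [Module.End.mem_eigenspace_iff] at hv
      rw [mem_iSup_iff iA _ (fun k hk => hk.1)]
      intro k hk hki
      rw [← iA.mem i hi v hv]
      exact h2 i hi k hk (by omega) v

end Pool.Agent.R841.TD
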