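import Pool.Agent.H370.G.R_seed8.R841.TD.Dec

/-! Maps lowering the flag: reduction to the spaces `U_i`, and the top strings. -/

set_option autoImplicit false

namespace Pool.Agent.R841.TD

open Polynomial Module Pool.Agent.Helper9.TD

variable {K : Type*} [Field K] {V : Type*} [AddCommGroup V] [Module K V]

/-- the two conditions on `X`, in terms of the projections onto the eigenspaces -/
structure SL (d : ℕ) (P Q : ℕ → Module.End K V) (X : Module.End K V) : Prop where
  low : ∀ i ≤ d, ∀ k ≤ d, i ≤ k → ∀ v, Q k (X (Q i v)) = 0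
  tri : ∀ i ≤ d, ∀ k ≤ d, (i + 1 < k ∨ k + 1 < i) → ∀ v, P k (X (P i v)) = 0

/-- the conditions on the spaces `U_i` -/
def UL (d : ℕ) (P Q : ℕ → Module.End K V) (X : Module.End K V) : Prop :=
  ∀ i ≤ d, ∀ v ∈ NN d P d Q i i,
    (∀ k ≤ d, i ≤ k → Q k (X v) = 0) ∧ (∀ k ≤ d, k + 1 < i → P k (X v) = 0)

variable {A B : Module.End K V} {d : ℕ} {a b : ℕ → K} {P Q : ℕ → Module.End K V}
  {X : Module.End K V}

theorem SL.rev (hX : SL d P Q X) : SL d (fun i => P (d - i)) Q X where
  low := hX.low
  tri := fun i hi k hk hik v => hX.tri (d - i) (by omega) (d - k) (by omega) (by omega) v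

theorem SL.F (iB : Idem B d b Q) (hX : SL d P Q X) (i : ℕ) (v : V)
    (hv : ∀ k ≤ d, i < k → Q k v = 0) (k : ℕ) (hk : k ≤ d) (hik : i ≤ k) : Q k (X v) = 0 := by
  rw [← iB.sum v, map_sum, map_sum]
  refine Finset.sum_eq_zero fun l hl => ?_
  have hl' : l ≤ d := by simpa [Nat.lt_succ_iff] using hl
  by_cases h : i < l
  · rw [hv l hl' h, map_zero, map_zero]
  · exact hX.low l hl' k hk (by omega) v

theorem SL.sub {X' : Module.End K V} (hX : SL d P Q X) (hX' : SL d P Q X') :
    SL d P Q (X - X') where
  low := fun i hi k hk hik v => by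
    rw [LinearMap.sub_apply, map_sub, hX.low i hi k hk hik, hX'.low i hi k hk hik, sub_zero]
  tri := fun i hi k hk hik v => by
    rw [LinearMap.sub_apply, map_sub, hX.tri i hi k hk hik, hX'.tri i hi k hk hik, sub_zero]

theorem Sys.UL_F (h : Sys A B d a P d b Q) (h1 : UL d P Q X) (i : ℕ) : i ≤ d → ∀ v : V,
    (∀ k ≤ d, i < k → Q k v = 0) → ∀ k ≤ d, i ≤ k → Q k (X v) = 0 := by
  induction i with
  | zero =>
    intro hi v hv
    exact (h1 0 hi v (mem_NN.mpr ⟨hv, fun k _ hk => by omega⟩)).1
  | succ i ih =>
    intro hi v hv k hk hik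
    obtain ⟨u, w, huw, hu, hw⟩ := Sys.split h i v
    have hw' : w ∈ NN d P d Q (i + 1) (i + 1) := by
      refine mem_NN.mpr ⟨fun l hl hil => ?_, hw⟩
      have : w = v - u := by rw [huw]; abel
      rw [this, map_sub, hv l hl hil, hu l hl (by omega), sub_zero]
    rw [huw, map_add, map_add, ih (by omega) u hu k hk (by omega),
      (h1 (i + 1) hi w hw').1 k hk hik, add_zero]

theorem Sys.UL_G (h : Sys A B d a P d b Q) (h1 : UL d P Q X) (n : ℕ) : ∀ i, i + n = d + 1 →
    ∀ v : V, (∀ k ≤ d, k < i → P k v = 0) → ∀ k ≤ d, k + 1 < i → P k (X v) = 0 := by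
  induction n with
  | zero =>
    intro i hi v hv k hk hki
    have : v = 0 := h.iA.eq_zero v fun k hk => hv k hk (by omega)
    rw [this, map_zero, map_zero]
  | succ n ih =>
    intro i hi v hv k hk hki
    obtain ⟨u, w, huw, hu, hw⟩ := Sys.split h i v
    have hu' : u ∈ NN d P d Q i i := by
      refine mem_NN.mpr ⟨hu, fun l hl hil => ?_⟩
      have : u = v - w := by rw [huw]; abel
      rw [this, map_sub, hv l hl hil, hw l hl (by omega), sub_zero]
    rw [huw, map_add, map_add, (h1 i (by omega) u hu').2 k hk hki,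
      ih (i + 1) (by omega) w hw k hk (by omega), add_zero]

theorem Sys.SL_of_UL (h : Sys A B d a P d b Q) (h1 : UL d P Q X)
    (h2 : UL d (fun i => P (d - i)) Q X) : SL d P Q X where
  low := fun i hi k hk hik v => by
    refine Sys.UL_F h h1 i hi (Q i v) (fun l hl hil => ?_) k hk hik
    rw [h.iB.orth l hl i hi, if_neg (by omega)]
  tri := fun i hi k hk hik v => by
    rcases hik with hik | hik
    · have h3 := Sys.UL_G h.revA h2 (i + 1) (d - i) (by omega) (P i v) (fun l hl hli => by
        show P (d - l) (P i v) = 0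
        rw [h.iA.orth (d - l) (by omega) i hi, if_neg (by omega)]) (d - k) (by omega) (by omega)
      have h4 : P (d - (d - k)) (X (P i v)) = 0 := h3
      rwa [Nat.sub_sub_self hk] at h4
    · refine Sys.UL_G h h1 (d + 1 - i) i (by omega) (P i v) (fun l hl hli => ?_) k hk hik
      rw [h.iA.orth l hl i hi, if_neg (by omega)]

theorem Q_str (iB : Idem B d b Q)
    (triB : ∀ i ≤ d, ∀ j ≤ d, (i + 1 < j ∨ j + 1 < i) → ∀ v, Q j (A (Q i v)) = 0)
    (c : ℕ → K) (j' j : ℕ) (u : V) (hu : ∀ k ≤ d, j < k → Q k u = 0) (s : ℕ) :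
    ∀ l ≤ d, j + s < l → Q l (aeval A (str c j' s) u) = 0 := by
  induction s with
  | zero => intro l hl hkl; rw [str_zero]; simpa using hu l hl hkl
  | succ s ih =>
    intro l hl hkl
    rw [str_succ, mul_comm, map_mul, Module.End.mul_apply]
    have h1 := up_lemma iB triB (j + s) _ ih l hl (by omega)
    have h2 := ih l hl (by omega)
    simp only [map_sub, aeval_X, aeval_C, LinearMap.sub_apply, Module.algebraMap_end_apply,
      map_smul, h1, h2, smul_zero, sub_zero]

theorem str_rel (a : ℕ → K) (j n : ℕ) :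
    str a j (n + 1) = str a (j + 1) (n + 1) + C (a (j + 1 + n) - a j) * str a (j + 1) n := by
  rw [str_succ', str_succ, map_sub]
  ring

theorem Sys.L10 (h : Sys A B d a P d b Q) (hX : SL d P Q X) (j : ℕ) (hj : 2 * j ≤ d) (q : V)
    (hq : q ∈ LW d P Q j) (h0 : X (aeval A (str a j (d - 2 * j)) q) = 0) :
    ∀ s, 2 * j + s ≤ d → X (aeval A (str a j s) q) = 0 := by
  have hqF : ∀ k ≤ d, j < k → Q k q = 0 := (mem_LW.mp hq).1
  have hqN : q ∈ NN d P d Q j j := (Submodule.mem_inf.mp hq).1
  -- the relation between two consecutive strings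
  have hrel : ∀ n, X (aeval A (str a j (n + 1)) q) = X (aeval A (str a (j + 1) (n + 1)) q) +
      (a (j + 1 + n) - a j) • X (aeval A (str a (j + 1) n) q) := by
    intro n
    rw [str_rel, map_add, map_mul, aeval_C, LinearMap.add_apply, Module.End.mul_apply,
      Module.algebraMap_end_apply, map_add, map_smul]
  have hlow : ∀ n, ∀ k ≤ d, j + n ≤ k → Q k (X (aeval A (str a (j + 1) n) q)) = 0 := by
    intro n k hk hnk
    exact hX.F h.iB (j + n) _ (Q_str h.iB h.triB a (j + 1) j q hqF n) k hk hnk
  -- descending induction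
  have key : ∀ t n, n + t = d - 2 * j → X (aeval A (str a (j + 1) n) q) = 0 := by
    intro t
    induction t with
    | zero =>
      intro n hn
      rw [add_zero] at hn
      rcases n with _ | n
      · rw [← hn] at h0
        simpa [str_zero] using h0
      · have h1 : X (aeval A (str a (j + 1) (n + 1)) q) =
            - ((a (j + 1 + n) - a j) • X (aeval A (str a (j + 1) n) q)) := by
          have h2 := hrel n
          rw [hn, h0] at h2
          rw [← hn] at h2
          exact eq_neg_of_add_eq_zero_left h2.symm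
        refine Sys.disj' h.revA (j + n) _ (fun k hk hik => ?_) (fun k hk hki => ?_)
        · rw [h1, map_neg, map_smul, hlow n k hk hik, smul_zero, neg_zero]
        · show P (d - k) (X (aeval A (str a (j + 1) (n + 1)) q)) = 0
          refine up_lemma h.iA hX.tri j _ (fun l hl hjl => ?_) (d - k) (by omega) (by omega)
          rw [P_aeval h.iA l hl]
          by_cases hl' : l ≤ d - j
          · rw [str_eval, Finset.prod_eq_zero (i := l - (j + 1)) (Finset.mem_range.mpr (by omega)),
              zero_smul]
            rw [show j + 1 + (l - (j + 1)) = l by omega, sub_self]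
          · rw [LW_P hq l hl (by omega), smul_zero]
    | succ t ih =>
      intro n hn
      have h1 := ih (n + 1) (by omega)
      have h2 := hrel n
      rw [h1, zero_add] at h2
      have h3 : X (aeval A (str a j (n + 1)) q) = 0 := by
        refine Sys.disj' h (j + n) _ (fun k hk hik => ?_) (fun k hk hki => ?_)
        · rw [h2, map_smul, hlow n k hk hik, smul_zero]
        · refine down_lemma h.iA hX.tri (j + (n + 1)) _ ?_ k hk (by omega)
          exact (mem_NN.mp (Sys.aeval_mem h j (n + 1) q hqN)).2
      rw [h3] at h2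
      rcases smul_eq_zero.mp h2.symm with h4 | h4
      · exfalso
        have := h.iA.inj (j + 1 + n) (by omega) j (by omega) (sub_eq_zero.mp h4)
        omega
      · exact h4
  intro s hs
  rcases s with _ | s
  · have := key (d - 2 * j) 0 (by omega)
    rw [str_zero] at this ⊢
    exact this
  · have h1 := key (d - 2 * j - (s + 1)) (s + 1) (by omega)
    have h2 := key (d - 2 * j - s) s (by omega)
    rw [hrel, h1, h2, smul_zero, add_zero]

/-- the image of the top of a string -/
theorem Sys.top_image (h : Sys A B d a P d b Q) (hX : SL d P Q X) (j : ℕ) (hj : 2 * j ≤ d) (q : V)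
    (hq : q ∈ LW d P Q j) : ∃ x y z : V, x ∈ LW d P Q j ∧ y ∈ LW d P Q (j + 1) ∧
      z ∈ LW d P Q (j - 1) ∧ (d < 2 * j + 1 → x = 0) ∧ (d < 2 * j + 2 → y = 0) ∧ (j = 0 → z = 0) ∧
      X (aeval A (str a j (d - 2 * j)) q) = aeval A (str a j (d - 2 * j - 1)) x +
        aeval A (str a (j + 1) (d - 2 * j - 2)) y + aeval A (str a (j - 1) (d - 2 * j)) z := by
  have hqN : q ∈ NN d P d Q j j := (Submodule.mem_inf.mp hq).1
  set t := aeval A (str a j (d - 2 * j)) q with ht
  have htN : t ∈ NN d P d Q (d - j) (d - j) := by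
    have := Sys.aeval_mem h j (d - 2 * j) q hqN
    rwa [show j + (d - 2 * j) = d - j by omega] at this
  have htP : ∀ k ≤ d, d - j < k → P k t = 0 := by
    intro k hk hjk
    rw [ht, P_aeval h.iA k hk, LW_P hq k hk hjk, smul_zero]
  have h1 : ∀ k ≤ d, d - j ≤ k → Q k (X t) = 0 := fun k hk hjk =>
    hX.F h.iB (d - j) t (mem_NN.mp htN).1 k hk hjk
  have h2 : ∀ k ≤ d, k + 1 < d - j → P k (X t) = 0 := fun k hk hjk =>
    down_lemma h.iA hX.tri (d - j) t (mem_NN.mp htN).2 k hk hjk
  have h3 : ∀ k ≤ d, d - j + 1 < k → P k (X t) = 0 := fun k hk hjk =>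
    up_lemma h.iA hX.tri (d - j) t htP k hk hjk
  rcases Nat.eq_zero_or_pos (d - j) with hd | hd
  · refine ⟨0, 0, 0, Submodule.zero_mem _, Submodule.zero_mem _, Submodule.zero_mem _,
      fun _ => rfl, fun _ => rfl, fun _ => rfl, ?_⟩
    rw [map_zero, map_zero, map_zero, add_zero, add_zero]
    exact h.iB.eq_zero _ fun k hk => h1 k hk (by omega)
  · have hXN : X t ∈ NN d P d Q (d - j - 1) (d - j - 1) :=
      mem_NN.mpr ⟨fun k hk hjk => h1 k hk (by omega), fun k hk hjk => h2 k hk (by omega)⟩
    obtain ⟨r, hr, hre⟩ := Sys.gen h (d - j - 1) (by omega) (X t) hXN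
    have hz := Sys.indep_level h (d - j - 1) r hr (j - 1) (fun l hl hld => by
      rw [← hre]
      exact h3 (d - l) (by omega) (by omega))
    refine ⟨if 2 * j + 1 ≤ d then r j else 0, if 2 * j + 2 ≤ d then r (j + 1) else 0,
      if 1 ≤ j then r (j - 1) else 0, ?_, ?_, ?_, ?_, ?_, ?_, ?_⟩
    · split_ifs
      · exact hr j
      · exact Submodule.zero_mem _
    · split_ifs
      · exact hr (j + 1)
      · exact Submodule.zero_mem _
    · split_ifs
      · exact hr (j - 1)
      · exact Submodule.zero_mem _
    · intro hd'; rw [if_neg (by omega)]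
    · intro hd'; rw [if_neg (by omega)]
    · intro hd'; rw [if_neg (by omega)]
    · rw [hre]
      have hsum : ∑ l ∈ (Finset.range (d - j - 1 + 1)).filter (fun l => d - j - 1 + l ≤ d),
          aeval A (str a l (d - j - 1 - l)) (r l) =
          ∑ l ∈ (({j, j + 1, j - 1} : Finset ℕ)).filter (fun l => l ≤ d - j - 1 ∧
            d - j - 1 + l ≤ d ∧ j ≤ l + 1), aeval A (str a l (d - j - 1 - l)) (r l) := by
        symm
        refine Finset.sum_subset ?_ ?_
        · intro l hl
          rw [Finset.mem_filter] at hl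
          rw [Finset.mem_filter, Finset.mem_range]
          omega
        · intro l hl hl'
          rw [Finset.mem_filter, Finset.mem_range] at hl
          simp only [Finset.mem_filter, Finset.mem_insert, Finset.mem_singleton] at hl'
          rw [hz l (by omega) (by omega) hl.2, map_zero]
      rw [hsum, Finset.sum_filter]
      rcases Nat.eq_zero_or_pos j with hj0 | hj0
      · subst hj0
        rw [show ({0, 0 + 1, 0 - 1} : Finset ℕ) = {0, 1} by decide, Finset.sum_pair (by decide)]
        rw [if_neg (by omega : ¬ (1 : ℕ) ≤ 0), map_zero (aeval A (str a (0 - 1) (d - 2 * 0)))]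
        refine Eq.trans ?_ (add_zero _).symm
        congr 1
        · by_cases hc : 2 * 0 + 1 ≤ d
          · rw [if_pos (by omega), if_pos hc]
            congr 3
          · rw [if_neg (by omega), if_neg hc, map_zero]
        · by_cases hc : 2 * 0 + 2 ≤ d
          · rw [if_pos (by omega), if_pos hc]
            congr 3
          · rw [if_neg (by omega), if_neg hc, map_zero]
      · rw [Finset.sum_insert (by simp; omega), Finset.sum_pair (by omega), ← add_assoc]
        congr 1
        · congr 1
          · by_cases hc : 2 * j + 1 ≤ d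
            · rw [if_pos (by omega), if_pos hc]
              congr 3
              omega
            · rw [if_neg (by omega), if_neg hc, map_zero]
          · by_cases hc : 2 * j + 2 ≤ d
            · rw [if_pos (by omega), if_pos hc]
              congr 3
              omega
            · rw [if_neg (by omega), if_neg hc, map_zero]
        · rw [if_pos (by omega), if_pos (by omega)]
          congr 3
          omega

end Pool.Agent.R841.TD
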