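import Pool.Agent.H370.G.R_seed8.R841.TD.Defs
import Pool.Agent.H370.G.R_seed8.Helper9.TDExt

/-! TD-POLY, part E. -/

set_option autoImplicit false

namespace Pool.Agent.R841.TD

open Polynomial Module Pool.Agent.Helper9.TD

namespace PE

variable {K : Type*} [Field K]

theorem TT_two (β : K) (n : ℕ) : TT β (n + 2) = β * TT β (n + 1) - TT β n + 1 := by rw [TT]

theorem TI (β : K) (r : ℕ) : TT β (r + 1) ^ 2 - TT β (r + 1) = TT β (r + 2) * TT β r := by
  induction r with
  | zero => simp [TT]
  | succ r ih =>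
    have h := TT_two β (r + 1)
    have h' := TT_two β r
    have e1 : r + 1 + 1 = r + 2 := rfl
    have e2 : r + 1 + 2 = r + 3 := rfl
    rw [e1] at h
    rw [e2] at h
    rw [e1, e2]
    linear_combination ih + TT β (r + 2) * h' - TT β (r + 1) * h

theorem dif (β γ : K) (α : ℤ → K) (h : Rec β γ α) (z : ℤ) (n : ℕ) :
    α (z + n + 2) - α (z + 1) = TT β (n + 1) * (α (z + 2) - α (z + 1)) -
      TT β n * (α (z + 1) - α z) ∧
    α (z + n + 3) - α (z + 1) = TT β (n + 2) * (α (z + 2) - α (z + 1)) -
      TT β (n + 1) * (α (z + 1) - α z) := by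
  have h0 := h (z + 1)
  rw [show z + 1 - 1 = z by ring, show z + 1 + 1 = z + 2 by ring] at h0
  induction n with
  | zero =>
    have h1 := h (z + 2)
    rw [show z + 2 - 1 = z + 1 by ring, show z + 2 + 1 = z + 3 by ring] at h1
    have t2 : TT β 2 = β + 1 := by rw [TT_two]; simp [TT]
    have t1 : TT β 1 = 1 := by simp [TT]
    have t0 : TT β 0 = 0 := by simp [TT]
    simp only [Nat.cast_zero, add_zero, zero_add]
    rw [t2, t1, t0]
    constructor
    · ring
    · linear_combination h1 - h0
  | succ n ih =>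
    have h1 := h (z + n + 3)
    rw [show z + (n : ℤ) + 3 - 1 = z + n + 2 by ring, show z + (n : ℤ) + 3 + 1 = z + n + 4 by ring]
      at h1
    have c1 : z + ((n + 1 : ℕ) : ℤ) + 2 = z + n + 3 := by push_cast; ring
    have c2 : z + ((n + 1 : ℕ) : ℤ) + 3 = z + n + 4 := by push_cast; ring
    rw [c1, c2]
    refine ⟨ih.2, ?_⟩
    have t := TT_two β (n + 1)
    have t' := TT_two β n
    rw [show n + 1 + 1 = n + 2 from rfl] at t
    rw [show n + 1 + 2 = n + 3 from rfl] at t
    rw [show n + 1 + 2 = n + 3 from rfl, show n + 1 + 1 = n + 2 from rfl, t]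
    obtain ⟨i1, i2⟩ := ih
    linear_combination h1 - h0 + β * i2 - i1 + (α (z + 1) - α z) * t'

theorem EQ (β γ : K) (α : ℤ → K) (h : Rec β γ α) (z : ℤ) (r : ℕ) :
    TT β (r + 2) * (α (z + r + 2) - α (z + 1)) = TT β (r + 1) * (α (z + r + 3) - α z) := by
  obtain ⟨h1, h2⟩ := dif β γ α h z r
  have h3 := TI β r
  linear_combination TT β (r + 2) * h1 - TT β (r + 1) * h2 + (α (z + 1) - α z) * h3

/-- The basis of the polynomials given by strings. -/
noncomputable def seq (a : ℕ → K) (j : ℕ) : Polynomial.Sequence K where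
  elems' s := str a j s
  degree_eq' s := by
    rw [degree_eq_natDegree (str_monic a j s).ne_zero, str_natDegree]

noncomputable def bas (a : ℕ → K) (j : ℕ) : Basis ℕ K K[X] :=
  (seq a j).basis fun i => by
    have : (seq a j) i = str a j i := rfl
    rw [this, (str_monic a j i).leadingCoeff]
    exact isUnit_one

theorem bas_apply (a : ℕ → K) (j s : ℕ) : bas a j s = str a j s := by
  rw [bas, Polynomial.Sequence.basis_eq_self]
  rfl

theorem exists_op (a : ℕ → K) (j : ℕ) (v : ℕ → K[X]) :
    ∃ E : K[X] →ₗ[K] K[X], ∀ s, E (str a j s) = v s := by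
  refine ⟨(bas a j).constr K v, fun s => ?_⟩
  rw [← bas_apply, Basis.constr_basis]

end PE

open PE in
/-- TD-POLY, part E -/
theorem poly_E {K : Type*} [Field K] (d : ℕ) (a : ℕ → K) (β : K)
    (hrec : ∀ i, i + 3 ≤ d → a i - a (i + 3) = (β + 1) * (a (i + 1) - a (i + 2)))
    (j : ℕ) (hj : 2 * (j + 1) ≤ d) :
    ∃ E : K[X] →ₗ[K] K[X], ∀ s, 2 * (j + 1) + s ≤ d →
      E (str a (j + 1) s) = C (TT β (d - 1 - 2 * j - s)) * str a j s ∧
      E (str (fun i => a (d - i)) (j + 1) s) =
        C (TT β (d - 1 - 2 * j - s)) * str (fun i => a (d - i)) j s := by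
  obtain ⟨γ, α, hα, hαa⟩ := exists_ext d a β hrec
  obtain ⟨E, hE⟩ := exists_op a (j + 1) (fun s => C (TT β (d - 1 - 2 * j - s)) * str a j s)
  have key : ∀ s r, 2 * (j + 1) + (r + s) ≤ d →
      E (str a (j + 1) r * str (fun i => a (d - i)) (j + 1) s) =
        C (TT β (d - 1 - 2 * j - r - s)) * (str a j r * str (fun i => a (d - i)) j s) := by
    intro s
    induction s with
    | zero =>
      intro r hr
      rw [str_zero, str_zero, mul_one, mul_one, hE]
      rfl
    | succ s ih =>
      intro r hr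
      have h1 : str a (j + 1) r * str (fun i => a (d - i)) (j + 1) (s + 1) =
          str a (j + 1) (r + 1) * str (fun i => a (d - i)) (j + 1) s -
            (a (d - (j + 1 + s)) - a (j + 1 + r)) •
              (str a (j + 1) r * str (fun i => a (d - i)) (j + 1) s) := by
        rw [str_succ, str_succ, smul_eq_C_mul, C_sub]
        ring
      have h2 : str a j r * str (fun i => a (d - i)) j (s + 1) =
          str a j (r + 1) * str (fun i => a (d - i)) j s -
            C (a (d - (j + s)) - a (j + r)) * (str a j r * str (fun i => a (d - i)) j s) := by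
        rw [str_succ, str_succ, C_sub]
        ring
      obtain ⟨q, hq⟩ : ∃ q, d = 2 * (j + 1) + (r + s) + q + 1 := ⟨d - (2 * (j + 1) + (r + s)) - 1, by omega⟩
      have e1 : d - 1 - 2 * j - (r + 1) - s = q + 1 := by omega
      have e2 : d - 1 - 2 * j - r - s = q + 2 := by omega
      have e3 : d - 1 - 2 * j - r - (s + 1) = q + 1 := by omega
      rw [h1, map_sub, map_smul, ih (r + 1) (by omega), ih r (by omega), h2, e1, e2, e3]
      have h3 := EQ β γ α hα ((j + r : ℕ) : ℤ) q
      have i1 := hαa (d - (j + 1 + s)) (by omega)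
      have i2 := hαa (j + 1 + r) (by omega)
      have i3 := hαa (d - (j + s)) (by omega)
      have i4 := hαa (j + r) (by omega)
      have j1 : ((d - (j + 1 + s) : ℕ) : ℤ) = ((j + r : ℕ) : ℤ) + q + 2 := by omega
      have j2 : ((j + 1 + r : ℕ) : ℤ) = ((j + r : ℕ) : ℤ) + 1 := by omega
      have j3 : ((d - (j + s) : ℕ) : ℤ) = ((j + r : ℕ) : ℤ) + q + 3 := by omega
      rw [j1] at i1
      rw [j2] at i2
      rw [j3] at i3
      rw [i1, i2, i3, i4] at h3
      have h4 := congrArg (C : K → K[X]) h3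
      simp only [C_mul, C_sub] at h4
      rw [smul_eq_C_mul, C_sub, C_sub]
      linear_combination (-(str a j r * str (fun i => a (d - i)) j s)) * h4
  refine ⟨E, fun s hs => ⟨hE s, ?_⟩⟩
  have := key s 0 (by omega)
  rw [str_zero, str_zero, one_mul, one_mul] at this
  exact this

end Pool.Agent.R841.TD
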