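import Pool.Agent.H370.G.R_seed8.R841.TD.Defs
import Pool.Agent.H370.G.R_seed8.Helper9.TDExt
import Mathlib.Algebra.Polynomial.Sequence

/-! # Project TD (MP_770f2c_al), piece TD-POLY: the operator `Ψ` -/

set_option autoImplicit false

namespace Pool.Agent.R841.TD

namespace Psi

open Polynomial Module Pool.Agent.Helper9.TD

variable {K : Type*} [Field K]

theorem TT_zero (β : K) : TT β 0 = 0 := rfl

theorem TT_one (β : K) : TT β 1 = 1 := rfl

theorem TT_add (β : K) (n : ℕ) : TT β (n + 2) = β * TT β (n + 1) - TT β n + 1 := rfl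

/-- (I) -/
theorem TT_sq (β : K) (r : ℕ) :
    TT β (r + 1) ^ 2 - TT β (r + 1) = TT β (r + 2) * TT β r := by
  induction r with
  | zero => rw [TT_zero, zero_add, TT_one]; ring
  | succ r ih =>
    have h := TT_add β (r + 1)
    rw [show r + 1 + 1 = r + 2 from rfl, show r + 1 + 2 = r + 3 from rfl] at *
    rw [h]
    have h2 := TT_add β r
    linear_combination (TT β (r + 2)) * h2 + ih

/-- (I2) -/
theorem diff_one {β γ : K} {α : ℤ → K} (hα : Rec β γ α) (z : ℤ) (n : ℕ) :
    α (z + n + 2) - α (z + 1) = TT β (n + 1) * (α (z + 2) - α (z + 1)) -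
      TT β n * (α (z + 1) - α z) := by
  have hrec : ∀ i : ℤ, α (i + 2) = γ + β * α (i + 1) - α i := by
    intro i
    have h := hα (i + 1)
    rw [add_sub_cancel_right, show i + 1 + 1 = i + 2 by ring] at h
    linear_combination h
  induction n using Nat.twoStepInduction with
  | zero =>
    rw [TT_zero, zero_add, TT_one]
    push_cast
    rw [show z + 0 + 2 = z + 2 by ring]
    ring
  | one =>
    rw [show (1 : ℕ) + 1 = 0 + 2 from rfl, TT_add, zero_add, TT_one, TT_zero]
    push_cast
    rw [show z + 1 + 2 = (z + 1) + 2 by ring, hrec (z + 1), show z + 1 + 1 = z + 2 by ring,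
      hrec z]
    ring
  | more n h0 h1 =>
    rw [show n + 2 + 1 = (n + 1) + 2 from rfl, TT_add β (n + 1), show n + 1 + 1 = n + 2 from rfl]
    rw [TT_add β n]
    push_cast at h0 h1 ⊢
    rw [TT_add β n] at h1
    have e1 : z + (n + 2) + 2 = (z + n + 2) + 2 := by ring
    have e2 : (z + n + 2) + 1 = z + (n + 1) + 2 := by ring
    rw [e1, hrec (z + n + 2), e2]
    have h3 := hrec z
    linear_combination β * h1 - h0 - h3

/-- (EQ) -/
theorem TT_eq {β γ : K} {α : ℤ → K} (hα : Rec β γ α) (z : ℤ) (r : ℕ) :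
    TT β (r + 2) * (α (z + r + 2) - α (z + 1)) = TT β (r + 1) * (α (z + r + 3) - α z) := by
  have h1 := diff_one hα z r
  have h2 := diff_one hα z (r + 1)
  rw [show r + 1 + 1 = r + 2 from rfl] at h2
  have e : z + ((r + 1 : ℕ) : ℤ) + 2 = z + r + 3 := by push_cast; ring
  rw [e] at h2
  have h3 := TT_sq β r
  linear_combination TT β (r + 2) * h1 - TT β (r + 1) * h2 + (α (z + 1) - α z) * h3

/-- (*) -/
theorem str_sub (f : ℕ → K) (z s : ℕ) :
    str f z (s + 1) - str f (z + 1) (s + 1) = C (f (z + s + 1) - f z) * str f (z + 1) s := by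
  rw [str_succ', str_succ f (z + 1) s, show z + 1 + s = z + s + 1 by ring, C_sub]
  ring

/-- the universal operator `D` -/
theorem exists_D {β γ : K} {α : ℤ → K} (hα : Rec β γ α) (f : ℕ → K) (hf : ∀ n : ℕ, f n = α n) :
    ∃ D : K[X] →ₗ[K] K[X], ∀ z s : ℕ,
      D (str f z s) = C (TT β (s - 1)) * str f (z + 1) (s - 2) := by
  let S : Polynomial.Sequence K :=
    ⟨fun s => str f 0 s, fun s => by
      rw [degree_eq_natDegree (str_monic f 0 s).ne_zero, str_natDegree]⟩
  have hS : ∀ i, S i = str f 0 i := fun i => rfl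
  have hu : ∀ i, IsUnit (S i).leadingCoeff := by
    intro i
    rw [hS, (str_monic f 0 i).leadingCoeff]
    exact isUnit_one
  refine ⟨(S.basis hu).constr K fun s => C (TT β (s - 1)) * str f 1 (s - 2), ?_⟩
  intro z
  induction z with
  | zero =>
    intro s
    have h := (S.basis hu).constr_basis K (fun s => C (TT β (s - 1)) * str f 1 (s - 2)) s
    rw [Polynomial.Sequence.basis_eq_self, hS] at h
    exact h
  | succ z ihz =>
    intro s
    induction s with
    | zero =>
      have h := ihz 0
      rw [str_zero] at h ⊢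
      rw [h]
      simp [TT_zero]
    | succ s ihs =>
      have h1 := str_sub f z s
      have h2 : str f (z + 1) (s + 1) = str f z (s + 1) -
          (f (z + s + 1) - f z) • str f (z + 1) s := by
        rw [smul_eq_C_mul, ← h1]
        ring
      rw [h2, map_sub, map_smul, ihz (s + 1), ihs]
      rcases s with _ | _ | r
      · simp [TT_zero]
      · simp [TT_zero, TT_one, str_zero]
      · rw [show r + 1 + 1 + 1 - 1 = r + 2 from rfl, show r + 1 + 1 - 1 = r + 1 from rfl,
          show r + 1 + 1 + 1 - 2 = r + 1 from rfl, show r + 1 + 1 - 2 = r from rfl,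
          str_succ' f (z + 1) r, str_succ f (z + 1 + 1) r, smul_eq_C_mul]
        have e := TT_eq hα (z : ℤ) r
        have f1 : f (z + 1) = α ((z : ℤ) + 1) := (hf (z + 1)).trans (congrArg α (by omega))
        have f2 : f (z + 1 + 1 + r) = α ((z : ℤ) + r + 2) := by
          exact (hf _).trans (congrArg α (by omega))
        have f3 : f (z + (r + 1 + 1) + 1) = α ((z : ℤ) + r + 3) := by
          exact (hf _).trans (congrArg α (by omega))
        have f4 : f z = α (z : ℤ) := hf z
        rw [← f1, ← f2, ← f3, ← f4] at e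
        have e' := congrArg (C : K → K[X]) e
        simp only [C_mul, C_sub] at e'
        rw [C_sub]
        linear_combination (str f (z + 1 + 1) r) * e'

/-! ### the operator `Ψ` -/

/-- `Ψ g = c0 (D (X g) - X D g) + ((c0 - c1) X + w) D g` -/
noncomputable def op (D : K[X] →ₗ[K] K[X]) (c0 c1 w : K) : K[X] →ₗ[K] K[X] :=
  c0 • (D ∘ₗ LinearMap.mulLeft K X - LinearMap.mulLeft K X ∘ₗ D) +
    LinearMap.mulLeft K (C (c0 - c1) * X + C w) ∘ₗ D

theorem op_apply (D : K[X] →ₗ[K] K[X]) (c0 c1 w : K) (g : K[X]) :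
    op D c0 c1 w g = C c0 * (D (X * g) - X * D g) + (C (c0 - c1) * X + C w) * D g := by
  simp only [op, LinearMap.add_apply, LinearMap.smul_apply, LinearMap.sub_apply,
    LinearMap.comp_apply, LinearMap.mulLeft_apply, smul_eq_C_mul]

theorem core (D : K[X] →ₗ[K] K[X]) (c0 c1 w x0 xm t1 t2 y y1 : K) (p q : K[X])
    (h1 : D p = C t1 * q) (h2 : D (p * (X - C y)) = C t2 * ((X - C y1) * q))
    (he : t2 * (y1 - x0) = t1 * (y - xm)) (hw : w = c1 * x0 - c0 * xm) :
    op D c0 c1 w p = C (c0 * t2 - c1 * t1) * ((X - C x0) * q) := by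
  have h3 : D (X * p) = C t2 * ((X - C y1) * q) + C y * (C t1 * q) := by
    have e : X * p = p * (X - C y) + y • p := by
      rw [smul_eq_C_mul]
      ring
    rw [e, map_add, map_smul, h2, h1, smul_eq_C_mul]
  rw [op_apply, h3, h1, hw]
  have he' := congrArg (C : K → K[X]) he
  simp only [C_mul, C_sub] at he' ⊢
  linear_combination (-(C c0 * q)) * he'

theorem core1 (D : K[X] →ₗ[K] K[X]) (c0 c1 w y : K) (p r : K[X])
    (h1 : D p = 0) (h2 : D (p * (X - C y)) = r) : op D c0 c1 w p = C c0 * r := by
  have h3 : D (X * p) = r := by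
    have e : X * p = p * (X - C y) + y • p := by
      rw [smul_eq_C_mul]
      ring
    rw [e, map_add, map_smul, h2, h1, smul_zero, add_zero]
  rw [op_apply, h3, h1]
  ring

/-- the partial sums of the differences -/
theorem sum_formula {β γ : K} {α : ℤ → K} (hα : Rec β γ α) (j b : ℤ) (n : ℕ) :
    ∑ h ∈ Finset.range (n + 1), (α (j + h) - α (b - h)) =
      (α j - α b) * TT β (n + 1) - (α (j - 1) - α (b + 1)) * TT β n := by
  have hd : ∀ h : ℤ, α (j + (h + 1)) - α (b - (h + 1)) =
      β * (α (j + h) - α (b - h)) - (α (j + (h - 1)) - α (b - (h - 1))) := by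
    intro h
    have h1 := hα (j + h)
    have h2 := hα (b - h)
    rw [show j + h - 1 = j + (h - 1) by ring, show j + h + 1 = j + (h + 1) by ring] at h1
    rw [show b - h - 1 = b - (h + 1) by ring, show b - h + 1 = b - (h - 1) by ring] at h2
    linear_combination h1 - h2
  -- the increments
  have hinc : ∀ n : ℕ, α (j + ((n : ℤ) + 1)) - α (b - ((n : ℤ) + 1)) =
      (α j - α b) * (TT β (n + 2) - TT β (n + 1)) -
        (α (j - 1) - α (b + 1)) * (TT β (n + 1) - TT β n) := by
    intro n
    induction n using Nat.twoStepInduction with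
    | zero =>
      have h := hd 0
      rw [zero_sub, add_zero, sub_zero, zero_add] at h
      rw [show (0 : ℕ) + 2 = 0 + 2 from rfl, TT_add, zero_add, TT_one, TT_zero]
      rw [Nat.cast_zero, zero_add, h]
      rw [show j + (-1 : ℤ) = j - 1 by ring, show b - (-1 : ℤ) = b + 1 by ring]
      ring
    | one =>
      have h := hd 1
      have h' := hd 0
      rw [zero_sub, add_zero, sub_zero, show j + (-1 : ℤ) = j - 1 by ring,
        show b - (-1 : ℤ) = b + 1 by ring, zero_add] at h'
      rw [sub_self, add_zero, sub_zero, h'] at h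
      rw [show (1 : ℕ) + 2 = 1 + 2 from rfl, TT_add, show (1 : ℕ) + 1 = 0 + 2 from rfl, TT_add,
        zero_add, TT_one, TT_zero]
      rw [Nat.cast_one, h]
      ring
    | more n h0 h1 =>
      have h := hd ((n : ℤ) + 1 + 1)
      push_cast at h0 h1 ⊢
      rw [show (n : ℤ) + 2 + 1 = (n : ℤ) + 1 + 1 + 1 by ring, h,
        show (n : ℤ) + 1 + 1 - 1 = (n : ℤ) + 1 by ring, h0, h1]
      have a1 := TT_add β (n + 2)
      have a2 := TT_add β (n + 1)
      have a3 := TT_add β n
      rw [show n + 2 + 2 = n + 4 from rfl, show n + 2 + 1 = n + 3 from rfl] at a1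
      rw [show n + 1 + 2 = n + 3 from rfl, show n + 1 + 1 = n + 2 from rfl] at a2
      rw [show n + 2 + 2 = n + 4 from rfl, show n + 2 + 1 = n + 3 from rfl,
        show n + 1 + 2 = n + 3 from rfl, show n + 1 + 1 = n + 2 from rfl, a1, a2]
      linear_combination (-(α (j - 1) - α (b + 1))) * a3 + 0 * a3
  induction n with
  | zero =>
    rw [zero_add, Finset.sum_range_one, TT_one, TT_zero]
    push_cast
    rw [add_zero, sub_zero]
    ring
  | succ n ih =>
    rw [Finset.sum_range_succ, ih]
    have h := hinc n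
    push_cast
    rw [h]
    rw [show n + 1 + 1 = n + 2 from rfl]
    ring

/-- strings of the reversed sequence -/
theorem str_rev (d : ℕ) (a : ℕ → K) (f : ℕ → K) (hf : ∀ i ≤ d, f i = a i) (j s : ℕ)
    (hs : 2 * j + s ≤ d) : str (fun i => a (d - i)) j s = str f (d - j + 1 - s) s := by
  rw [str, str, ← Finset.prod_range_reflect]
  refine Finset.prod_congr rfl fun h hh => ?_
  have hh' := Finset.mem_range.1 hh
  congr 2
  rw [hf _ (by omega)]
  congr 1
  omega

theorem str_fwd (d : ℕ) (a : ℕ → K) (f : ℕ → K) (hf : ∀ i ≤ d, f i = a i) (j s : ℕ)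
    (hs : 2 * j + s ≤ d) : str a j s = str f j s := by
  rw [str, str]
  refine Finset.prod_congr rfl fun h hh => ?_
  have hh' := Finset.mem_range.1 hh
  rw [hf _ (by omega)]

theorem AA_eq {β γ : K} {α : ℤ → K} (hα : Rec β γ α) (d : ℕ) (a : ℕ → K)
    (ha : ∀ i ≤ d, α i = a i) (j n : ℕ) (hs : 2 * j + (n + 1) ≤ d) :
    AA d a j (n + 1) = (α j - α (d - j : ℕ)) * TT β (n + 1) -
      (α ((j : ℤ) - 1) - α (((d - j : ℕ) : ℤ) + 1)) * TT β n := by
  rw [← sum_formula hα (j : ℤ) ((d - j : ℕ) : ℤ) n, AA]
  refine Finset.sum_congr rfl fun h hh => ?_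
  have hh' := Finset.mem_range.1 hh
  rw [← ha (j + h) (by omega), ← ha (d - j - h) (by omega)]
  congr 2
  have : ((d - j - h : ℕ) : ℤ) = ((d - j : ℕ) : ℤ) - h := by omega
  exact this

end Psi

open Polynomial Module Pool.Agent.Helper9.TD Psi

/-- TD-POLY, part `Ψ` -/
theorem poly_Psi {K : Type*} [Field K] (d : ℕ) (a : ℕ → K) (β : K)
    (hrec : ∀ i, i + 3 ≤ d → a i - a (i + 3) = (β + 1) * (a (i + 1) - a (i + 2)))
    (j : ℕ) (hj : 2 * j ≤ d) :
    ∃ Ψ : K[X] →ₗ[K] K[X], ∀ s, 2 * j + s ≤ d →
      Ψ (str a j s) = C (AA d a j s) * str a j (s - 1) ∧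
      Ψ (str (fun i => a (d - i)) j s) =
        C (AA d a j s) * str (fun i => a (d - i)) j (s - 1) := by
  obtain ⟨γ, α, hα, ha⟩ := exists_ext d a β hrec
  set f : ℕ → K := fun n => α n with hf
  have hfa : ∀ i ≤ d, f i = a i := ha
  obtain ⟨D, hD⟩ := exists_D hα f fun n => rfl
  set b := d - j with hb
  set c0 : K := α j - α b with hc0
  set c1 : K := α ((j : ℤ) - 1) - α ((b : ℤ) + 1) with hc1
  set w : K := c1 * f j - c0 * α ((j : ℤ) - 1) with hw
  have hw' : w = c1 * f b - c0 * α ((b : ℤ) + 1) := by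
    rw [hw, hc0, hc1, hf]
    ring
  refine ⟨op D c0 c1 w, fun s hs => ?_⟩
  rw [str_rev d a f hfa j s hs, str_rev d a f hfa j (s - 1) (by omega),
    str_fwd d a f hfa j s hs, str_fwd d a f hfa j (s - 1) (by omega), ← hb]
  rcases s with _ | _ | r
  · have h1 : D (1 : K[X]) = 0 := by
      have := hD j 0
      rw [str_zero] at this
      rw [this]
      simp [TT_zero]
    have h2 : D ((1 : K[X]) * (X - C (f j))) = 0 := by
      have h := hD j 1
      rw [str_succ, str_zero, add_zero] at h
      rw [h]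
      simp [TT_zero]
    have h3 := core1 D c0 c1 w (f j) 1 0 h1 h2
    have h4 : AA d a j 0 = 0 := by simp [AA]
    rw [h4, str_zero, str_zero, h3]
    simp
  · have h4 := AA_eq hα d a ha j 0 hs
    rw [← hb, ← hc0, ← hc1, zero_add, TT_one, TT_zero, mul_one, mul_zero, sub_zero] at h4
    rw [zero_add, h4]
    constructor
    · have h1 : D (str f j 1) = 0 := by
        rw [hD]
        simp [TT_zero]
      have h2 : D (str f j 1 * (X - C (f (j + 1)))) = 1 := by
        rw [← str_succ, hD]
        simp [TT_one, str_zero]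
      rw [core1 D c0 c1 w _ _ _ h1 h2, Nat.sub_self, str_zero]
    · have h1 : D (str f b 1) = 0 := by
        rw [hD]
        simp [TT_zero]
      have h2 : D (str f b 1 * (X - C (f (b - 1)))) = 1 := by
        have e : str f b 1 * (X - C (f (b - 1))) = str f (b - 1) 2 := by
          rw [str_succ' f (b - 1) 1, mul_comm, Nat.sub_add_cancel (by omega)]
        rw [e, hD]
        simp [TT_one, str_zero]
      rw [show b + 1 - 1 = b by omega, core1 D c0 c1 w _ _ _ h1 h2, Nat.sub_self, str_zero]
  · have h4 := AA_eq hα d a ha j (r + 1) hs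
    rw [← hb, ← hc0, ← hc1] at h4
    rw [show r + 1 + 1 = r + 2 from rfl] at *
    rw [h4, show r + 2 - 1 = r + 1 from rfl]
    constructor
    · have h1 : D (str f j (r + 2)) = C (TT β (r + 1)) * str f (j + 1) r := hD j (r + 2)
      have h2 : D (str f j (r + 2) * (X - C (f (j + (r + 2))))) =
          C (TT β (r + 2)) * ((X - C (f (j + 1 + r))) * str f (j + 1) r) := by
        rw [← str_succ, hD]
        rw [show r + 2 + 1 - 1 = r + 2 from rfl, show r + 2 + 1 - 2 = r + 1 from rfl, str_succ,
          mul_comm (str f (j + 1) r)]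
      have he : TT β (r + 2) * (f (j + 1 + r) - f j) =
          TT β (r + 1) * (f (j + (r + 2)) - α ((j : ℤ) - 1)) := by
        have h := TT_eq hα ((j : ℤ) - 1) r
        have e1 : f (j + 1 + r) = α ((j : ℤ) - 1 + r + 2) := by
          show α ((j + 1 + r : ℕ) : ℤ) = _
          congr 1
          push_cast
          ring
        have e2 : f j = α ((j : ℤ) - 1 + 1) := by
          show α (j : ℤ) = _
          congr 1
          ring
        have e3 : f (j + (r + 2)) = α ((j : ℤ) - 1 + r + 3) := by
          show α ((j + (r + 2) : ℕ) : ℤ) = _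
          congr 1
          push_cast
          ring
        rw [e1, e2, e3]
        exact h
      rw [core D c0 c1 w (f j) _ _ _ _ _ _ _ h1 h2 he hw, ← str_succ']
    · set e := b - r - 1 with he0
      have hb1 : b + 1 - (r + 2) = e := by omega
      have hb2 : b + 1 - (r + 1) = e + 1 := by omega
      have hb3 : e - 1 + 1 = e := by omega
      have hb4 : e + 1 + r = b := by omega
      rw [hb1, hb2]
      have h1 : D (str f e (r + 2)) = C (TT β (r + 1)) * str f (e + 1) r := hD e (r + 2)
      have h2 : D (str f e (r + 2) * (X - C (f (e - 1)))) =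
          C (TT β (r + 2)) * ((X - C (f e)) * str f (e + 1) r) := by
        have e1 : str f e (r + 2) * (X - C (f (e - 1))) = str f (e - 1) (r + 2 + 1) := by
          rw [str_succ' f (e - 1) (r + 2), mul_comm, hb3]
        rw [e1, hD, hb3, show r + 2 + 1 - 1 = r + 2 from rfl,
          show r + 2 + 1 - 2 = r + 1 from rfl, str_succ']
      have he : TT β (r + 2) * (f e - f b) =
          TT β (r + 1) * (f (e - 1) - α ((b : ℤ) + 1)) := by
        have h := TT_eq hα ((e : ℤ) - 1) r
        have e1 : f b = α ((e : ℤ) - 1 + r + 2) := by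
          show α (b : ℤ) = _
          congr 1
          rw [← hb4]
          push_cast
          ring
        have e2 : f e = α ((e : ℤ) - 1 + 1) := by
          show α (e : ℤ) = _
          congr 1
          ring
        have e3 : f (e - 1) = α ((e : ℤ) - 1) := by
          show α ((e - 1 : ℕ) : ℤ) = _
          congr 1
          omega
        have e4 : α ((b : ℤ) + 1) = α ((e : ℤ) - 1 + r + 3) := by
          congr 1
          rw [← hb4]
          push_cast
          ring
        rw [e1, e2, e3, e4]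
        linear_combination -h
      rw [core D c0 c1 w (f b) _ _ _ _ _ _ _ h1 h2 he hw', str_succ f (e + 1) r, hb4,
        mul_comm (str f (e + 1) r)]

end Pool.Agent.R841.TD
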