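import Pool.Agent.H370.G.R_seed8.R841.TD.Defs

/-! Strings in a tridiagonal system: the lowest weight spaces and the decomposition of `V`. -/

set_option autoImplicit false

namespace Pool.Agent.R841.TD

open Polynomial Module Pool.Agent.Helper9.TD

variable {K : Type*} [Field K] {V : Type*} [AddCommGroup V] [Module K V]

theorem P_aeval {A : Module.End K V} {d : ℕ} {a : ℕ → K} {P : ℕ → Module.End K V}
    (h : Idem A d a P) (k : ℕ) (hk : k ≤ d) (g : K[X]) (v : V) :
    P k (aeval A g v) = g.eval (a k) • P k v := by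
  induction g using Polynomial.induction_on' with
  | add p q hp hq => simp only [map_add, LinearMap.add_apply, hp, hq, eval_add, add_smul]
  | monomial n c =>
    rw [aeval_monomial, eval_monomial]
    have hn : ∀ n : ℕ, P k ((A ^ n) v) = a k ^ n • P k v := by
      intro n
      induction n with
      | zero => simp
      | succ n ih => rw [pow_succ', Module.End.mul_apply, h.comm k hk, ih, smul_smul, pow_succ']
    rw [Module.End.mul_apply, Module.algebraMap_end_apply, map_smul, hn, smul_smul]

/-- a vector all of whose projections vanish, from an index on -/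
theorem Sys.aeval_mem {A B : Module.End K V} {d : ℕ} {a b : ℕ → K} {P Q : ℕ → Module.End K V}
    (h : Sys A B d a P d b Q) (j s : ℕ) (v : V) (hv : v ∈ NN d P d Q j j) :
    aeval A (str a j s) v ∈ NN d P d Q (j + s) (j + s) := by
  induction s with
  | zero => rw [str_zero]; simpa using hv
  | succ s ih =>
    rw [str_succ, mul_comm, map_mul, Module.End.mul_apply, ← add_assoc]
    have := h.NN_A (j + s) (j + s) _ ih
    simpa [map_sub, aeval_X, aeval_C, LinearMap.sub_apply] using this

/-- `(V*_0 + … + V*_j) ∩ (V_j + … + V_{d-j})` -/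
def LW (d : ℕ) (P Q : ℕ → Module.End K V) (j : ℕ) : Submodule K V :=
  NN d P d Q j j ⊓ NN d (fun i => P (d - i)) d Q j j

theorem mem_LW {d : ℕ} {P Q : ℕ → Module.End K V} {j : ℕ} {v : V} :
    v ∈ LW d P Q j ↔ (∀ k ≤ d, j < k → Q k v = 0) ∧ (∀ k ≤ d, k < j → P k v = 0) ∧
      (∀ k ≤ d, k < j → P (d - k) v = 0) := by
  rw [LW, Submodule.mem_inf, mem_NN, mem_NN]
  tauto

theorem LW_rev (d : ℕ) (P Q : ℕ → Module.End K V) (j : ℕ) :
    LW d (fun i => P (d - i)) Q j = LW d P Q j := by
  ext v
  rw [mem_LW, mem_LW]
  constructor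
  · rintro ⟨h1, h2, h3⟩
    refine ⟨h1, fun k hk hkj => ?_, h2⟩
    have := h3 k hk hkj
    rwa [Nat.sub_sub_self hk] at this
  · rintro ⟨h1, h2, h3⟩
    refine ⟨h1, h3, fun k hk hkj => ?_⟩
    have := h2 k hk hkj
    show P (d - (d - k)) v = 0
    rwa [Nat.sub_sub_self hk]

section

variable {A B : Module.End K V} {d : ℕ} {a b : ℕ → K} {P Q : ℕ → Module.End K V}

theorem LW_P {j : ℕ} {v : V} (hv : v ∈ LW d P Q j) (k : ℕ) (hk : k ≤ d) (hkj : d - j < k) :
    P k v = 0 := by
  have := (mem_LW.mp hv).2.2 (d - k) (by omega) (by omega)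
  rwa [Nat.sub_sub_self hk] at this

theorem Sys.LW_inj (h : Sys A B d a P d b Q) (j : ℕ) (hj : 2 * j ≤ d) (q : V)
    (hq : q ∈ LW d P Q j) (h0 : P (d - j) q = 0) : q = 0 := by
  refine h.revA.disj j (j + 1) (by omega) q ?_
  rw [mem_NN]
  refine ⟨(mem_LW.mp hq).1, fun k hk hkj => ?_⟩
  by_cases hk' : k = j
  · subst hk'; exact h0
  · exact (mem_LW.mp hq).2.2 k hk (by omega)

theorem Sys.LW_big (h : Sys A B d a P d b Q) (j : ℕ) (hj : d < 2 * j) (q : V)
    (hq : q ∈ LW d P Q j) : q = 0 := by
  refine h.iA.eq_zero q fun k hk => ?_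
  by_cases hkj : k < j
  · exact (mem_LW.mp hq).2.1 k hk hkj
  · exact LW_P hq k hk (by omega)

/-- the sum of the spaces `U_i` is everything -/
theorem Sys.sup_U (h : Sys A B d a P d b Q) : (⨆ i : ℕ, NN d P d Q i i) = ⊤ := by
  set W : Submodule K V := ⨆ i : ℕ, NN d P d Q i i with hW
  have hmem : ∀ i, NN d P d Q i i ≤ W := fun i => le_iSup (fun i => NN d P d Q i i) i
  have hWA : ∀ w ∈ W, A w ∈ W := by
    intro w hw
    have : W ≤ W.comap A := by
      refine iSup_le fun i => ?_
      intro x hx
      rw [Submodule.mem_comap]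
      have h1 := h.NN_A i i x hx
      have h2 : A x = (A x - a i • x) + a i • x := by abel
      rw [h2]
      exact W.add_mem (hmem (i + 1) h1) (W.smul_mem _ (hmem i hx))
    exact this hw
  have hWB : ∀ w ∈ W, B w ∈ W := by
    intro w hw
    have : W ≤ W.comap B := by
      refine iSup_le fun i => ?_
      intro x hx
      rw [Submodule.mem_comap]
      rcases i with _ | i
      · rw [h.NN_B0 _ x hx]
        exact W.smul_mem _ (hmem 0 hx)
      · have h1 := h.NN_B i i x hx
        have h2 : B x = (B x - b (i + 1) • x) + b (i + 1) • x := by abel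
        rw [h2]
        exact W.add_mem (hmem i h1) (W.smul_mem _ (hmem (i + 1) hx))
    exact this hw
  rcases h.irr W hWA hWB with h1 | h1
  · exfalso
    obtain ⟨v, hv⟩ := h.neA d le_rfl
    have h2 : P d v ∈ NN d P d Q d d := by
      rw [mem_NN]
      refine ⟨fun k hk hk' => by omega, fun k hk hk' => ?_⟩
      rw [h.iA.orth k hk d le_rfl, if_neg (by omega)]
    have h3 := hmem d h2
    rw [h1, Submodule.mem_bot] at h3
    exact hv h3
  · exact h1

/-- `V = (V*_0 + … + V*_i) + (V_{i+1} + … + V_d)` -/
theorem Sys.split (h : Sys A B d a P d b Q) (i : ℕ) (v : V) :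
    ∃ u w : V, v = u + w ∧ (∀ k ≤ d, i < k → Q k u = 0) ∧ (∀ k ≤ d, k < i + 1 → P k w = 0) := by
  let F : Submodule K V :=
    { carrier := {v | ∀ k ≤ d, i < k → Q k v = 0}
      add_mem' := by
        intro x y h1 h2 k hk hik
        rw [map_add, h1 k hk hik, h2 k hk hik, add_zero]
      zero_mem' := fun k _ _ => map_zero _
      smul_mem' := by
        intro c x h1 k hk hik
        rw [map_smul, h1 k hk hik, smul_zero] }
  let G : Submodule K V :=
    { carrier := {v | ∀ k ≤ d, k < i + 1 → P k v = 0}
      add_mem' := by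
        intro x y h1 h2 k hk hik
        rw [map_add, h1 k hk hik, h2 k hk hik, add_zero]
      zero_mem' := fun k _ _ => map_zero _
      smul_mem' := by
        intro c x h1 k hk hik
        rw [map_smul, h1 k hk hik, smul_zero] }
  have h1 : (⊤ : Submodule K V) ≤ F ⊔ G := by
    rw [← Sys.sup_U h]
    refine iSup_le fun l => ?_
    by_cases hl : l ≤ i
    · refine le_trans ?_ le_sup_left
      intro x hx k hk hik
      exact (mem_NN.mp hx).1 k hk (by omega)
    · refine le_trans ?_ le_sup_right
      intro x hx k hk hik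
      exact (mem_NN.mp hx).2 k hk (by omega)
  obtain ⟨u, hu, w, hw, huw⟩ := Submodule.mem_sup.mp (h1 (Submodule.mem_top (x := v)))
  exact ⟨u, w, huw.symm, hu, hw⟩

/-- surjectivity of `U_k → U_{d-k}` -/
theorem Sys.surj (h : Sys A B d a P d b Q) (k : ℕ) (hk : 2 * k ≤ d) (v : V)
    (hv : v ∈ NN d P d Q (d - k) (d - k)) :
    ∃ u ∈ NN d P d Q k k, aeval A (str a k (d - 2 * k)) u = v := by
  obtain ⟨hv1, hv2⟩ := mem_NN.mp hv
  set p := str a k (d - 2 * k) with hp
  have hpe : ∀ l ≤ d, d - k ≤ l → p.eval (a l) ≠ 0 := by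
    intro l hl hkl
    rw [hp, str_eval, Finset.prod_ne_zero_iff]
    intro t ht h0
    have ht' := Finset.mem_range.mp ht
    have := h.iA.inj l hl (k + t) (by omega) (sub_eq_zero.mp h0)
    omega
  have hpz : ∀ l, k ≤ l → l < d - k → p.eval (a l) = 0 := by
    intro l h1 h2
    rw [hp, str_eval]
    refine Finset.prod_eq_zero (i := l - k) (Finset.mem_range.mpr (by omega)) ?_
    rw [show k + (l - k) = l by omega, sub_self]
  -- an inverse image
  set v' : V := ∑ l ∈ Finset.range (d + 1), (p.eval (a l))⁻¹ • P l v with hv'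
  have hPv' : ∀ l ≤ d, P l v' = (p.eval (a l))⁻¹ • P l v := by
    intro l hl
    rw [hv', map_sum]
    have : ∀ i ∈ Finset.range (d + 1), P l ((p.eval (a i))⁻¹ • P i v) =
        if l = i then (p.eval (a l))⁻¹ • P l v else 0 := by
      intro i hi
      rw [map_smul, h.iA.orth l hl i (by simpa [Nat.lt_succ_iff] using hi)]
      split_ifs with hh
      · subst hh; rfl
      · rw [smul_zero]
    rw [Finset.sum_congr rfl this, Finset.sum_ite_eq, if_pos (Finset.mem_range.mpr (by omega))]
  have hpv' : aeval A p v' = v := by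
    rw [← sub_eq_zero]
    refine h.iA.eq_zero _ fun l hl => ?_
    rw [map_sub, P_aeval h.iA l hl, hPv' l hl]
    by_cases hkl : d - k ≤ l
    · rw [smul_smul, mul_inv_cancel₀ (hpe l hl hkl), one_smul, sub_self]
    · rw [hv2 l hl (by omega), smul_zero, smul_zero, sub_zero]
  -- split with respect to the reversed order
  obtain ⟨u, w, huw, hu, hw⟩ := Sys.split h.revA k v'
  have hw' : ∀ l ≤ d, d - k ≤ l → P l w = 0 := by
    intro l hl hkl
    have := hw (d - l) (by omega) (by omega)
    rwa [Nat.sub_sub_self hl] at this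
  have hpu : ∀ l ≤ d, d - k < l → Q l (aeval A p u) = 0 := by
    -- `u ∈ V*_0 + … + V*_k`, and `p` has degree `d - 2k`
    have key : ∀ s, ∀ l ≤ d, k + s < l → Q l (aeval A (str a k s) u) = 0 := by
      intro s
      induction s with
      | zero => intro l hl hkl; rw [str_zero]; simpa using hu l hl hkl
      | succ s ih =>
        intro l hl hkl
        rw [str_succ, mul_comm, map_mul, Module.End.mul_apply]
        have h1 := up_lemma h.iB h.triB (k + s) _ ih l hl (by omega)
        have h2 := ih l hl (by omega)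
        simp only [map_sub, aeval_X, aeval_C, LinearMap.sub_apply, Module.algebraMap_end_apply,
          map_smul, h1, h2, smul_zero, sub_zero]
    intro l hl hkl
    exact key (d - 2 * k) l hl (by omega)
  have hsum : aeval A p u + aeval A p w = v := by
    rw [← hpv', huw, map_add]
  have hpw : aeval A p w = 0 := by
    refine h.revA.disj (d - k) (d - k + 1) (by omega) _ ?_
    rw [mem_NN]
    refine ⟨fun l hl hkl => ?_, fun l hl hkl => ?_⟩
    · have h1 : aeval A p w = v - aeval A p u := by rw [← hsum]; abel
      rw [h1, map_sub, hv1 l hl hkl, hpu l hl hkl, sub_zero]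
    · show P (d - l) (aeval A p w) = 0
      rw [P_aeval h.iA (d - l) (by omega)]
      by_cases h1 : d - k ≤ d - l
      · rw [hw' (d - l) (by omega) h1, smul_zero]
      · rw [hpz (d - l) (by omega) (by omega), zero_smul]
  refine ⟨u, ?_, by rw [← hsum, hpw, add_zero]⟩
  rw [mem_NN]
  refine ⟨hu, fun l hl hlk => ?_⟩
  have h1 : aeval A p u = v := by rw [← hsum, hpw, add_zero]
  have h2 := congrArg (P l) h1
  rw [P_aeval h.iA l hl, hv2 l hl (by omega)] at h2
  rcases smul_eq_zero.mp h2 with h3 | h3
  · exfalso
    rw [hp, str_eval, Finset.prod_eq_zero_iff] at h3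
    obtain ⟨t, ht, h4⟩ := h3
    have ht' := Finset.mem_range.mp ht
    have := h.iA.inj l hl (k + t) (by omega) (sub_eq_zero.mp h4)
    omega
  · exact h3

/-- every element of `U_i` is a sum of string vectors -/
theorem Sys.gen (h : Sys A B d a P d b Q) (i : ℕ) (hi : i ≤ d) (v : V)
    (hv : v ∈ NN d P d Q i i) :
    ∃ q : ℕ → V, (∀ j, q j ∈ LW d P Q j) ∧
      v = ∑ j ∈ (Finset.range (i + 1)).filter (fun j => i + j ≤ d), aeval A (str a j (i - j)) (q j) := by
  -- first half
  have half : ∀ i, 2 * i ≤ d → ∀ v ∈ NN d P d Q i i, ∃ q : ℕ → V, (∀ j, q j ∈ LW d P Q j) ∧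
      v = ∑ j ∈ Finset.range (i + 1), aeval A (str a j (i - j)) (q j) := by
    intro i
    induction i with
    | zero =>
      intro _ v hv
      refine ⟨fun j => if j = 0 then v else 0, fun j => ?_, ?_⟩
      · show (if j = 0 then v else 0) ∈ LW d P Q j
        by_cases hj : j = 0
        · subst hj
          rw [if_pos rfl, mem_LW]
          exact ⟨(mem_NN.mp hv).1, fun k _ hk => by omega, fun k _ hk => by omega⟩
        · rw [if_neg hj]; exact Submodule.zero_mem _
      · simp [str_zero]
    | succ i ih =>
      intro hi v hv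
      -- push to `U_{d-i}`
      have h1 : aeval A (str a (i + 1) (d - 2 * i - 1)) v ∈ NN d P d Q (d - i) (d - i) := by
        have := Sys.aeval_mem h (i + 1) (d - 2 * i - 1) v hv
        rwa [show i + 1 + (d - 2 * i - 1) = d - i by omega] at this
      obtain ⟨u, hu, hue⟩ := Sys.surj h i (by omega) _ h1
      obtain ⟨q, hq, hqe⟩ := ih (by omega) u hu
      set w := v - (A u - a i • u) with hw
      have hwNN : w ∈ NN d P d Q (i + 1) (i + 1) := Submodule.sub_mem _ hv (h.NN_A i i u hu)
      have hpw : aeval A (str a (i + 1) (d - 2 * i - 1)) w = 0 := by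
        rw [hw, map_sub]
        have e1 : str a i (d - 2 * i) = str a (i + 1) (d - 2 * i - 1) * (X - C (a i)) := by
          rw [show d - 2 * i = (d - 2 * i - 1) + 1 by omega, str_succ', mul_comm,
            Nat.add_sub_cancel]
        rw [e1, map_mul, Module.End.mul_apply] at hue
        simp only [map_sub, aeval_X, aeval_C, LinearMap.sub_apply,
          Module.algebraMap_end_apply, map_smul] at hue
        rw [map_sub, map_smul, hue, sub_self]
      have hwL : w ∈ LW d P Q (i + 1) := by
        rw [mem_LW]
        refine ⟨(mem_NN.mp hwNN).1, (mem_NN.mp hwNN).2, fun k hk hki => ?_⟩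
        have h2 := congrArg (P (d - k)) hpw
        rw [P_aeval h.iA (d - k) (by omega), map_zero] at h2
        rcases smul_eq_zero.mp h2 with h3 | h3
        · exfalso
          rw [str_eval, Finset.prod_eq_zero_iff] at h3
          obtain ⟨t, ht, h4⟩ := h3
          have ht' := Finset.mem_range.mp ht
          have := h.iA.inj (d - k) (by omega) (i + 1 + t) (by omega) (sub_eq_zero.mp h4)
          omega
        · exact h3
      refine ⟨fun j => if j = i + 1 then w else q j, fun j => ?_, ?_⟩
      · show (if j = i + 1 then w else q j) ∈ LW d P Q j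
        by_cases hj : j = i + 1
        · subst hj; rw [if_pos rfl]; exact hwL
        · rw [if_neg hj]; exact hq j
      · rw [Finset.sum_range_succ]
        beta_reduce
        rw [if_pos rfl, Nat.sub_self, str_zero, map_one, Module.End.one_apply]
        have h2 : ∑ j ∈ Finset.range (i + 1), aeval A (str a j (i + 1 - j))
            (if j = i + 1 then w else q j) = A u - a i • u := by
          conv_rhs => rw [hqe]
          rw [map_sum, Finset.smul_sum, ← Finset.sum_sub_distrib]
          refine Finset.sum_congr rfl fun j hj => ?_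
          have hj' := Finset.mem_range.mp hj
          rw [if_neg (by omega), show i + 1 - j = (i - j) + 1 by omega, str_succ, mul_comm,
            map_mul, Module.End.mul_apply, show j + (i - j) = i by omega]
          simp only [map_sub, aeval_X, aeval_C, LinearMap.sub_apply, Module.algebraMap_end_apply]
        rw [h2, hw]
        abel
  by_cases h2 : 2 * i ≤ d
  · obtain ⟨q, hq, hqe⟩ := half i h2 v hv
    refine ⟨q, hq, ?_⟩
    rw [hqe]
    rw [Finset.filter_true_of_mem]
    intro j hj
    have := Finset.mem_range.mp hj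
    omega
  · have hv' : v ∈ NN d P d Q (d - (d - i)) (d - (d - i)) := by
      rwa [Nat.sub_sub_self hi]
    obtain ⟨u, hu, hue⟩ := Sys.surj h (d - i) (by omega) v hv'
    obtain ⟨q, hq, hqe⟩ := half (d - i) (by omega) u hu
    refine ⟨q, hq, ?_⟩
    rw [← hue, hqe, map_sum]
    have hset : (Finset.range (i + 1)).filter (fun j => i + j ≤ d) = Finset.range (d - i + 1) := by
      ext j
      rw [Finset.mem_filter, Finset.mem_range, Finset.mem_range]
      omega
    rw [hset]
    refine Finset.sum_congr rfl fun j hj => ?_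
    have hj' := Finset.mem_range.mp hj
    rw [← Module.End.mul_apply, ← map_mul, mul_comm]
    have e1 : str a j (i - j) = str a j (d - i - j) * str a (d - i) (d - 2 * (d - i)) := by
      have e2 := str_add a j (d - i - j) (d - 2 * (d - i))
      rw [show j + (d - i - j) = d - i by omega] at e2
      rw [← e2]
      congr 1
      omega
    rw [e1]

end

end Pool.Agent.R841.TD
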